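import Pool.Agent.Helper47K9.FD.Stm

/-!
# [AFF], [DDET] the determinant along directions of rank one
-/

set_option autoImplicit false

namespace Pool.Agent.Helper47K9.FD

open Finset Equiv Pool.Agent.Y998.ST

theorem aff : S_AFF := by
  intro V _ _ A u w s
  obtain ⟨Bw, hBw⟩ : ∃ B : Matrix Unit V ℝ, B = Matrix.of fun _ b => -(w b) := ⟨_, rfl⟩
  obtain ⟨Cu, hCu⟩ : ∃ C : ℝ → Matrix V Unit ℝ, C = fun r => Matrix.of fun a _ => r * u a := ⟨_, rfl⟩
  obtain ⟨M, hM⟩ : ∃ M : Matrix (Unit ⊕ V) (Unit ⊕ V) ℝ, M = Matrix.fromBlocks 1 Bw (Cu 1) A :=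
    ⟨_, rfl⟩
  obtain ⟨e, he⟩ : ∃ e : Unit ⊕ V → ℝ, e = Sum.elim (fun _ => 1) (fun _ => 0) := ⟨_, rfl⟩
  obtain ⟨c, hc⟩ : ∃ c : Unit ⊕ V → ℝ, c = Sum.elim (fun _ => 0) u := ⟨_, rfl⟩
  have key : ∀ r : ℝ, (A + r • Matrix.vecMulVec u w).det =
      (M.updateCol (Sum.inl ()) e).det + r * (M.updateCol (Sum.inl ()) c).det := by
    intro r
    have h1 : (Matrix.fromBlocks (1 : Matrix Unit Unit ℝ) Bw (Cu r) A).det =
        (A + r • Matrix.vecMulVec u w).det := by
      rw [Matrix.det_fromBlocks_one₁₁]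
      congr 1
      ext a b
      rw [Matrix.sub_apply, Matrix.mul_apply, Matrix.add_apply, Matrix.smul_apply,
        Matrix.vecMulVec_apply, hBw, hCu]
      simp
      ring
    have h2 : Matrix.fromBlocks (1 : Matrix Unit Unit ℝ) Bw (Cu r) A =
        M.updateCol (Sum.inl ()) (e + r • c) := by
      ext a b
      rcases b with b | b
      · rw [show b = () from rfl, Matrix.updateCol_self]
        rcases a with a | a
        · rw [Matrix.fromBlocks_apply₁₁, he, hc]
          simp
        · rw [Matrix.fromBlocks_apply₂₁, he, hc, hCu]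
          simp
      · rw [Matrix.updateCol_ne (by simp)]
        rcases a with a | a
        · rw [hM, Matrix.fromBlocks_apply₁₂, Matrix.fromBlocks_apply₁₂]
        · rw [hM, Matrix.fromBlocks_apply₂₂, Matrix.fromBlocks_apply₂₂]
    rw [← h1, h2, Matrix.det_updateCol_add, Matrix.det_updateCol_smul]
  have k0 := key 0
  have k1 := key 1
  rw [zero_smul, add_zero, zero_mul, add_zero] at k0
  rw [one_smul, one_mul] at k1
  rw [key s, k0, k1]
  ring

section dd

variable {V : Type} [Fintype V] [DecidableEq V]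

/-- the derivative of the determinant -/
noncomputable def Dd (B R : Matrix V V ℝ) : ℝ :=
  ∑ σ : Perm V, ((Equiv.Perm.sign σ : ℤ) : ℝ) *
    ∑ i, (∏ j ∈ univ.erase i, B (σ j) j) * R (σ i) i

theorem Dd_deriv (A : ℝ → Matrix V V ℝ) (t : ℝ) (R : Matrix V V ℝ)
    (h : ∀ a b, HasDerivAt (fun s => A s a b) (R a b) t) :
    HasDerivAt (fun s => (A s).det) (Dd (A t) R) t := by
  have e : (fun s => (A s).det) = fun s => ∑ σ : Perm V,
      ((Equiv.Perm.sign σ : ℤ) : ℝ) * ∏ i, A s (σ i) i := by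
    funext s
    rw [Matrix.det_apply']
  rw [e]
  refine HasDerivAt.fun_sum fun σ _ => ?_
  refine HasDerivAt.const_mul _ ?_
  have h1 := HasDerivAt.fun_finsetProd (u := (Finset.univ : Finset V))
    (f := fun i s => A s (σ i) i) (x := t) fun i _ => h (σ i) i
  refine h1.congr_deriv ?_
  refine Finset.sum_congr rfl fun i _ => ?_
  rw [smul_eq_mul]

theorem Dd_sum {ι : Type} [Fintype ι] (B : Matrix V V ℝ) (c : ι → ℝ) (R : ι → Matrix V V ℝ) :
    Dd B (∑ i, c i • R i) = ∑ i, c i * Dd B (R i) := by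
  unfold Dd
  simp only [Matrix.sum_apply, Matrix.smul_apply, smul_eq_mul, Finset.mul_sum]
  rw [Finset.sum_comm' (s := (univ : Finset ι)) (t := fun _ => (univ : Finset (Perm V)))
    (t' := (univ : Finset (Perm V))) (s' := fun _ => (univ : Finset ι)) (by simp)]
  refine Finset.sum_congr rfl fun σ _ => ?_
  rw [Finset.sum_comm]
  refine Finset.sum_congr rfl fun i _ => Finset.sum_congr rfl fun x _ => ?_
  ring

end dd

theorem ddet (haff : S_AFF) : S_DDET := by
  intro V _ _ A t ι _ c u w h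
  have h1 := Dd_deriv A t (∑ i, c i • Matrix.vecMulVec (u i) (w i)) h
  refine h1.congr_deriv ?_
  rw [Dd_sum]
  refine Finset.sum_congr rfl fun i _ => ?_
  congr 1
  have h2 := Dd_deriv (fun s => A t + s • Matrix.vecMulVec (u i) (w i)) 0
    (Matrix.vecMulVec (u i) (w i)) (fun a b => by
      have e : (fun s : ℝ => (A t + s • Matrix.vecMulVec (u i) (w i)) a b) =
          fun s => A t a b + s * Matrix.vecMulVec (u i) (w i) a b := by
        funext s
        rw [Matrix.add_apply, Matrix.smul_apply, smul_eq_mul]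
      rw [e]
      have h3 := ((hasDerivAt_id' (0 : ℝ)).mul_const
        (Matrix.vecMulVec (u i) (w i) a b)).const_add (A t a b)
      rwa [one_mul] at h3)
  have h3 : HasDerivAt (fun s : ℝ => (A t + s • Matrix.vecMulVec (u i) (w i)).det)
      ((A t + Matrix.vecMulVec (u i) (w i)).det - (A t).det) 0 := by
    have e : (fun s : ℝ => (A t + s • Matrix.vecMulVec (u i) (w i)).det) = fun s =>
        (A t).det + s * ((A t + Matrix.vecMulVec (u i) (w i)).det - (A t).det) := by
      funext s
      exact haff V (A t) (u i) (w i) s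
    rw [e]
    have h4 := ((hasDerivAt_id' (0 : ℝ)).mul_const
      ((A t + Matrix.vecMulVec (u i) (w i)).det - (A t).det)).const_add (A t).det
    rwa [one_mul] at h4
  have h4 := h2.unique h3
  simp only [zero_smul, add_zero] at h4
  exact h4

end Pool.Agent.Helper47K9.FD
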