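import Pool.Agent.Helper47K9.FD.Stm

/-!
# The determinant formula: assembly
-/

set_option autoImplicit false

namespace Pool.Agent.Helper47K9.FD

open Finset Equiv Pool.Agent.Y998.ST

section gen

variable {V : Type} [Fintype V] [DecidableEq V]

theorem cut_one_sub (D : Finset V) (P : Matrix V V ℝ) :
    1 - (Matrix.diagonal fun a => if a ∈ D then (1 : ℝ) else 0) * P = cut D (1 - P) := by
  ext a b
  rw [Matrix.sub_apply, Matrix.diagonal_mul]
  unfold cut
  by_cases h : a ∈ D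
  · rw [if_pos h, if_pos h, one_mul, Matrix.sub_apply]
  · rw [if_neg h, if_neg h, zero_mul, sub_zero, Matrix.one_apply]

theorem form (hDET : S_DET) (hNIL : S_NIL) {J : V → V → ℝ} (hs : ∀ x y, J x y = J y x)
    (h0 : ∀ x, J x x = 0) (t : ℝ) (D : Finset V) :
    NC J t D = (cut D (1 - qq J t)).det := by
  classical
  have h1 := hDET V J hs h0 t (-(Matrix.diagonal fun a => if a ∈ D then (1 : ℝ) else 0))
  have h2 : ∀ P : Matrix V V ℝ, 1 + -(Matrix.diagonal fun a => if a ∈ D then (1 : ℝ) else 0) * P =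
      1 - (Matrix.diagonal fun a => if a ∈ D then (1 : ℝ) else 0) * P := by
    intro P
    rw [neg_mul, ← sub_eq_add_neg]
  rw [h2, cut_one_sub] at h1
  rw [← h1]
  unfold NC
  congr 1
  funext g
  rw [h2, hNIL V g D]

theorem qq_col {J : V → V → ℝ} (hsym : ∀ a b, J a b = J b a) (h0 : ∀ x, J x x = 0)
    (hSYM : S_SYM) (t : ℝ) (y : V) : ∑ x, qq J t x y = 1 := by
  rw [← qq_row J t y]
  exact Finset.sum_congr rfl fun x _ => hSYM V J hsym h0 t x y

theorem EN_one_sub (P : Matrix V V ℝ) (f : V → ℝ) :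
    EN (1 - P) f = (∑ a, f a ^ 2) - EN P f := by
  unfold EN
  rw [← Finset.sum_sub_distrib]
  refine Finset.sum_congr rfl fun a _ => ?_
  have h1 : ∀ b, f a * (1 - P) a b * f b =
      (if a = b then f a * f b else 0) - f a * P a b * f b := by
    intro b
    rw [Matrix.sub_apply, Matrix.one_apply]
    split_ifs <;> ring
  rw [Finset.sum_congr rfl fun b _ => h1 b, Finset.sum_sub_distrib, Finset.sum_ite_eq,
    if_pos (Finset.mem_univ _)]
  ring

theorem EN_shift (P : Matrix V V ℝ) (hr : ∀ x, ∑ y, P x y = 1) (hc : ∀ y, ∑ x, P x y = 1)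
    (f : V → ℝ) (c : ℝ) : EN (1 - P) (fun a => f a - c) = EN (1 - P) f := by
  rw [EN_one_sub, EN_one_sub]
  have h1 : EN P (fun a => f a - c) = EN P f - 2 * c * (∑ a, f a) + c ^ 2 * Fintype.card V := by
    unfold EN
    have e1 : ∀ a b, (f a - c) * P a b * (f b - c) =
        f a * P a b * f b - c * (P a b * f b) - c * (f a * P a b) + c ^ 2 * P a b := by
      intro a b; ring
    simp only [e1, Finset.sum_add_distrib, Finset.sum_sub_distrib, ← Finset.mul_sum]
    have e2 : ∑ a, ∑ b, P a b * f b = ∑ b, f b := by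
      rw [Finset.sum_comm]
      refine Finset.sum_congr rfl fun b _ => ?_
      rw [← Finset.sum_mul, hc, one_mul]
    have e3 : ∑ a, f a * ∑ b, P a b = ∑ a, f a := by
      refine Finset.sum_congr rfl fun a _ => ?_
      rw [hr, mul_one]
    have e4 : ∑ a : V, ∑ b, P a b = Fintype.card V := by
      rw [Finset.sum_congr rfl fun a _ => hr a]
      simp
    rw [e2, e3, e4]
    ring
  have h2 : ∑ a, (f a - c) ^ 2 = (∑ a, f a ^ 2) - 2 * c * (∑ a, f a) +
      c ^ 2 * Fintype.card V := by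
    have e1 : ∀ a, (f a - c) ^ 2 = f a ^ 2 - 2 * c * f a + c ^ 2 := fun a => by ring
    simp only [e1, Finset.sum_add_distrib, Finset.sum_sub_distrib, ← Finset.mul_sum]
    simp
    ring
  rw [h1, h2]
  ring

theorem M_symm (hSYM : S_SYM) {J : V → V → ℝ} (hs : ∀ x y, J x y = J y x)
    (h0 : ∀ x, J x x = 0) (t : ℝ) (a b : V) : (1 - qq J t) a b = (1 - qq J t) b a := by
  rw [Matrix.sub_apply, Matrix.sub_apply, hSYM V J hs h0 t a b, Matrix.one_apply,
    Matrix.one_apply]
  simp only [eq_comm]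

theorem M_nonneg (hENE : S_ENE) {J : V → V → ℝ} (hJ : ∀ x y, 0 ≤ J x y)
    (hs : ∀ x y, J x y = J y x) (h0 : ∀ x, J x x = 0) {t : ℝ} (ht : 0 ≤ t) (f : V → ℝ) :
    0 ≤ EN (1 - qq J t) f := by
  rw [EN_one_sub]
  have := (hENE V J hJ hs h0 t ht f).2.1
  linarith

theorem NC_nonneg {J : V → V → ℝ} (hJ : ∀ x y, 0 ≤ J x y) {t : ℝ} (ht : 0 ≤ t) (D : Finset V) :
    0 ≤ NC J t D := by
  unfold NC
  exact exp_nonneg hJ ht fun g => by split_ifs <;> norm_num

theorem compl_erase (S : Finset V) (x : V) : (Sᶜ).erase x = (insert x S)ᶜ := by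
  ext a
  simp only [mem_erase, mem_compl, mem_insert, not_or]

/-- the upper bound, any graph -/
theorem up (hDET : S_DET) (hNIL : S_NIL) (hSCH : S_SCH) (hSYM : S_SYM) (hENE : S_ENE)
    {J : V → V → ℝ} (hJ : ∀ x y, 0 ≤ J x y) (hs : ∀ x y, J x y = J y x) (h0 : ∀ x, J x x = 0)
    {t : ℝ} (ht : 0 ≤ t) (S : Finset V) (x : V) (hx : x ∉ S) :
    ((S.card : ℝ) + 1) * NC J t Sᶜ ≤ S.card * NC J t (insert x S)ᶜ := by
  obtain ⟨k, hk⟩ : ∃ k : ℝ, k = S.card := ⟨_, rfl⟩
  have hk0 : 0 ≤ k := by rw [hk]; positivity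
  have hk1 : 0 < k + 1 := by linarith
  obtain ⟨f, hf⟩ : ∃ f : V → ℝ, f = fun a => if a = x then 1 else if a ∈ S then 0 else 1 / (k + 1) :=
    ⟨_, rfl⟩
  have hfx : f x = 1 := by rw [hf]; simp
  have hfS : ∀ a, a ∉ Sᶜ → f a = 0 := by
    intro a ha
    have haS : a ∈ S := by
      rw [mem_compl] at ha
      exact not_not.1 ha
    have hax : a ≠ x := fun h => hx (h ▸ haS)
    rw [hf]
    simp [haS, hax]
  have h1 := (hSCH V (1 - qq J t) (M_symm hSYM hs h0 t) (M_nonneg hENE hJ hs h0 ht) Sᶜ x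
    (by rw [mem_compl]; exact hx)).1 f hfx hfS
  rw [compl_erase, ← form hDET hNIL hs h0, ← form hDET hNIL hs h0] at h1
  have h2 : EN (1 - qq J t) f ≤ k / (k + 1) := by
    rw [← EN_shift (qq J t) (qq_row J t) (qq_col hs h0 hSYM t) f (1 / (k + 1)), EN_one_sub]
    have h3 := (hENE V J hJ hs h0 t ht (fun a => f a - 1 / (k + 1))).1
    have h4 : ∑ a, (f a - 1 / (k + 1)) ^ 2 = k / (k + 1) := by
      have e1 : ∀ a, (f a - 1 / (k + 1)) ^ 2 =
          (if a = x then (k / (k + 1)) ^ 2 else 0) + (if a ∈ S then (1 / (k + 1)) ^ 2 else 0) := by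
        intro a
        rw [hf]
        by_cases hax : a = x
        · subst hax
          simp only [if_true, if_neg hx, add_zero]
          congr 1
          field_simp
          ring
        · by_cases haS : a ∈ S
          · simp only [hax, haS, if_true, if_false, zero_add]
            ring
          · simp only [hax, haS, if_false, add_zero]
            ring
      rw [Finset.sum_congr rfl fun a _ => e1 a, Finset.sum_add_distrib, Finset.sum_ite_eq',
        if_pos (Finset.mem_univ _), Finset.sum_ite_mem, Finset.univ_inter, Finset.sum_const,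
        nsmul_eq_mul, ← hk]
      field_simp
    rw [h4]
    linarith
  have h5 := NC_nonneg hJ ht (insert x S)ᶜ
  have h6 : NC J t Sᶜ ≤ k / (k + 1) * NC J t (insert x S)ᶜ :=
    h1.trans (mul_le_mul_of_nonneg_right h2 h5)
  rw [← hk]
  calc (k + 1) * NC J t Sᶜ ≤ (k + 1) * (k / (k + 1) * NC J t (insert x S)ᶜ) :=
        mul_le_mul_of_nonneg_left h6 hk1.le
    _ = k * NC J t (insert x S)ᶜ := by field_simp

/-- the lower bound -/
theorem low (hDET : S_DET) (hNIL : S_NIL) (hSCH : S_SCH) (hSYM : S_SYM) (hENE : S_ENE)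
    (hPSI : S_PSI)
    {J : V → V → ℝ} (hJ : ∀ x y, 0 ≤ J x y) (hs : ∀ x y, J x y = J y x) (h0 : ∀ x, J x x = 0)
    {t : ℝ} (ht : 0 ≤ t) (b : ℕ → ℝ) (β : ℝ) (hβ : 0 ≤ β)
    (hb : ∀ k : ℕ, 1 ≤ k → ∀ x y, |qq J (k * t) x y - 1 / (Fintype.card V : ℝ)| ≤ b k)
    (hbs : ∀ N : ℕ, ∑ k ∈ Finset.Icc 1 N, b k ≤ β)
    (S : Finset V) (hS : S.Nonempty) (x : V) (hx : x ∉ S) :
    (S.card : ℝ) * NC J t (insert x S)ᶜ ≤ ((S.card : ℝ) + 1 + 4 * S.card * β) * NC J t Sᶜ := by
  obtain ⟨k, hk⟩ : ∃ k : ℝ, k = S.card := ⟨_, rfl⟩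
  have hk0 : 0 < k := by
    rw [hk]
    exact_mod_cast hS.card_pos
  have hpos : 0 < 1 + 1 / k + 4 * β := by positivity
  have h1 := (hSCH V (1 - qq J t) (M_symm hSYM hs h0 t) (M_nonneg hENE hJ hs h0 ht) Sᶜ x
    (by rw [mem_compl]; exact hx)).2 (1 / (1 + 1 / k + 4 * β)) ?_
  · rw [compl_erase, ← form hDET hNIL hs h0, ← form hDET hNIL hs h0, one_div,
      inv_mul_le_iff₀ hpos] at h1
    rw [← hk]
    calc k * NC J t (insert x S)ᶜ ≤ k * ((1 + 1 / k + 4 * β) * NC J t Sᶜ) :=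
          mul_le_mul_of_nonneg_left h1 hk0.le
      _ = _ := by field_simp
  · intro f hfx hfS
    obtain ⟨ψ, hψ⟩ : ∃ ψ : V → ℝ, ψ = fun a =>
      (if a = x then 1 else 0) - (if a ∈ S then 1 / k else 0) := ⟨_, rfl⟩
    have e0 : ∀ G : V → ℝ → ℝ, (∀ a, G a 0 = 0) → ∑ a, G a (ψ a) =
        G x 1 + ∑ a ∈ S, G a (-(1 / k)) := by
      intro G hG
      have e1 : ∀ a, G a (ψ a) = (if a = x then G x 1 else 0) +
          (if a ∈ S then G a (-(1 / k)) else 0) := by
        intro a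
        rw [hψ]
        by_cases hax : a = x
        · subst hax
          simp [hx]
        · by_cases haS : a ∈ S
          · simp [hax, haS]
          · simp [hax, haS, hG]
      rw [Finset.sum_congr rfl fun a _ => e1 a, Finset.sum_add_distrib, Finset.sum_ite_eq',
        if_pos (Finset.mem_univ _), Finset.sum_ite_mem, Finset.univ_inter]
    have s1 : ∑ a, ψ a = 0 := by
      rw [e0 (fun _ r => r) (fun _ => rfl), Finset.sum_const, nsmul_eq_mul, ← hk]
      field_simp
      ring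
    have s2 : ∑ a, ψ a ^ 2 = 1 + 1 / k := by
      rw [e0 (fun _ r => r ^ 2) (fun _ => by norm_num), Finset.sum_const, nsmul_eq_mul, ← hk]
      field_simp
    have s3 : ∑ a, |ψ a| = 2 := by
      rw [e0 (fun _ r => |r|) (fun _ => abs_zero), Finset.sum_const, nsmul_eq_mul, ← hk, abs_neg,
        abs_of_pos (by positivity : 0 < 1 / k), abs_one]
      field_simp
      norm_num
    have s4 : ∑ a, f a * ψ a = 1 := by
      rw [e0 (fun a r => f a * r) (fun _ => mul_zero _), hfx]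
      have : ∑ a ∈ S, f a * -(1 / k) = 0 := by
        refine Finset.sum_eq_zero fun a ha => ?_
        rw [hfS a (by rw [mem_compl]; exact not_not.2 ha), zero_mul]
      rw [this]
      ring
    have h2 := hPSI V J hJ hs h0 t ht b β hb hbs ψ f s1
    rw [s4, s2, s3, ← EN_one_sub] at h2
    rw [one_div, inv_le_iff_one_le_mul₀ hpos]
    calc (1 : ℝ) = 1 ^ 2 := by norm_num
      _ ≤ EN (1 - qq J t) f * (1 + 1 / k + β * 2 ^ 2) := h2
      _ = _ := by ring

end gen

end Pool.Agent.Helper47K9.FD
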