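import Pool.Agent.Helper47K9.FD.Stm
import Pool.Agent.Helper47K9.SC.Geo
import Pool.Agent.Helper47K9.SC.Gr

/-!
# [CAP] capacity in two dimensions
-/

set_option autoImplicit false

namespace Pool.Agent.Helper47K9.FD

open Finset Equiv Pool.Agent.Y998.ST

namespace CapL

theorem shell {L : ℕ} [NeZero L] (x : Fin 2 → ZMod L) (j : ℕ) :
    ((univ : Finset (Fin 2 → ZMod L)).filter fun y => tdist x y = j).card ≤ 4 * (j + 1) := by
  have h1 : ((univ : Finset (Fin 2 → ZMod L)).filter fun y => tdist x y = j).card ≤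
      ((Finset.Icc (-(j : ℤ)) j) ×ˢ (univ : Finset Bool)).card := by
    refine Finset.card_le_card_of_injOn
      (fun y => ((x 0 - y 0).valMinAbs, decide (0 ≤ (x 1 - y 1).valMinAbs))) ?_ ?_
    · intro y hy
      have h2 : tdist x y = j := (Finset.mem_filter.1 hy).2
      unfold tdist at h2
      rw [Fin.sum_univ_two] at h2
      simp only [coe_product, Set.mem_prod, mem_coe, Finset.mem_Icc, mem_univ, and_true]
      constructor <;> omega
    · intro y hy z hz hyz
      have h2 : tdist x y = j := (Finset.mem_filter.1 hy).2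
      have h3 : tdist x z = j := (Finset.mem_filter.1 hz).2
      unfold tdist at h2 h3
      rw [Fin.sum_univ_two] at h2 h3
      simp only [Prod.mk.injEq, decide_eq_decide] at hyz
      have h4 : (x 0 - y 0) = (x 0 - z 0) := ZMod.injective_valMinAbs hyz.1
      have h5 : (x 1 - y 1).valMinAbs = (x 1 - z 1).valMinAbs := by
        have h6 := hyz.1
        have h7 := hyz.2
        by_cases h8 : 0 ≤ (x 1 - y 1).valMinAbs
        · have h9 := h7.1 h8
          omega
        · have h9 : ¬ 0 ≤ (x 1 - z 1).valMinAbs := fun h => h8 (h7.2 h)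
          omega
      have h6 : (x 1 - y 1) = (x 1 - z 1) := ZMod.injective_valMinAbs h5
      funext i
      fin_cases i
      · exact sub_right_injective h4
      · exact sub_right_injective h6
  refine h1.trans ?_
  rw [Finset.card_product, Int.card_Icc, Finset.card_univ, Fintype.card_bool]
  omega

theorem harm (r : ℕ) : ∑ j ∈ Finset.range (r + 1), 1 / ((j : ℝ) + 1) ≤ 1 + Real.log (1 + r) := by
  have h := harmonic_le_one_add_log (r + 1)
  have e : ((harmonic (r + 1) : ℚ) : ℝ) = ∑ j ∈ Finset.range (r + 1), 1 / ((j : ℝ) + 1) := by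
    unfold harmonic
    push_cast
    exact Finset.sum_congr rfl fun j _ => by rw [one_div]
  rw [e] at h
  refine h.trans (le_of_eq ?_)
  push_cast
  rw [add_comm (r : ℝ) 1]

theorem log_diff {a b : ℝ} (ha : 1 ≤ a) (hab : a ≤ b) (hb : b ≤ a + 1) :
    Real.log b - Real.log a ≤ 1 / a := by
  have ha0 : 0 < a := by linarith
  have hb0 : 0 < b := by linarith
  rw [← Real.log_div hb0.ne' ha0.ne']
  have h1 := Real.log_le_sub_one_of_pos (show 0 < b / a by positivity)
  refine h1.trans ?_
  rw [div_sub_one ha0.ne']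
  exact div_le_div_of_nonneg_right (by linarith) ha0.le

end CapL

open CapL in
theorem cap : S_CAP := by
  have hl2 : 0 < Real.log 2 := Real.log_pos (by norm_num)
  refine ⟨32 * (1 + 1 / Real.log 2), by positivity, fun L _ hL x r hr => ?_⟩
  have hr1 : (1 : ℝ) ≤ r := by exact_mod_cast hr
  obtain ⟨ℓ, hℓ⟩ : ∃ ℓ : ℝ, ℓ = Real.log (1 + r) := ⟨_, rfl⟩
  have hℓ2 : Real.log 2 ≤ ℓ := by
    rw [hℓ]
    exact Real.log_le_log (by norm_num) (by linarith)
  have hℓ0 : 0 < ℓ := by linarith
  obtain ⟨f, hf⟩ : ∃ f : (Fin 2 → ZMod L) → ℝ, f = fun y =>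
    max 0 (1 - Real.log (1 + tdist x y) / ℓ) := ⟨_, rfl⟩
  have hf0 : ∀ y, r ≤ tdist x y → f y = 0 := by
    intro y hy
    rw [hf]
    simp only
    refine max_eq_left ?_
    have h1 : ℓ ≤ Real.log (1 + tdist x y) := by
      rw [hℓ]
      refine Real.log_le_log (by linarith) ?_
      have : (r : ℝ) ≤ tdist x y := by exact_mod_cast hy
      linarith
    have h2 : 1 ≤ Real.log (1 + tdist x y) / ℓ := by rwa [le_div_iff₀ hℓ0, one_mul]
    linarith
  have hadj : ∀ a b, nnRate 2 L a b ≠ 0 → tdist x b ≤ tdist x a + 1 := by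
    intro a b hab
    have h1 : Pool.Agent.Y998.LP.tdist a b ≤ 1 := Pool.Agent.Helper47K9.SC.GrL.dist_one hL a b hab
    have h2 : tdist x b ≤ tdist x a + Pool.Agent.Y998.LP.tdist a b :=
      Pool.Agent.Helper47K9.SC.tdist_tri x a b
    omega
  have hsym : ∀ a b, nnRate 2 L a b ≠ 0 → nnRate 2 L b a ≠ 0 := fun a b h => by
    rwa [nn_symm]
  -- one edge
  have hedge : ∀ a b, nnRate 2 L a b ≠ 0 → |f a - f b| ≤ 2 / (((tdist x a : ℝ) + 1) * ℓ) := by
    intro a b hab
    have h1 := hadj a b hab
    have h2 := hadj b a (hsym a b hab)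
    have h1r : (tdist x b : ℝ) ≤ tdist x a + 1 := by exact_mod_cast h1
    have h2r : (tdist x a : ℝ) ≤ tdist x b + 1 := by exact_mod_cast h2
    have ha0 : (0 : ℝ) ≤ tdist x a := by positivity
    have hb0 : (0 : ℝ) ≤ tdist x b := by positivity
    have h3 : |f a - f b| ≤ |Real.log (1 + tdist x a) - Real.log (1 + tdist x b)| / ℓ := by
      have e1 : f a - f b = max (1 - Real.log (1 + tdist x a) / ℓ) 0 -
          max (1 - Real.log (1 + tdist x b) / ℓ) 0 := by
        rw [hf]
        simp only [max_comm (0 : ℝ)]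
      rw [e1]
      refine (abs_max_sub_max_le_abs _ _ _).trans (le_of_eq ?_)
      have e2 : 1 - Real.log (1 + tdist x a) / ℓ - (1 - Real.log (1 + tdist x b) / ℓ) =
          -((Real.log (1 + tdist x a) - Real.log (1 + tdist x b)) / ℓ) := by ring
      rw [e2, abs_neg, abs_div, abs_of_pos hℓ0]
    have h4 : |Real.log (1 + tdist x a) - Real.log (1 + tdist x b)| ≤ 2 / ((tdist x a : ℝ) + 1) := by
      rcases le_total (tdist x a : ℝ) (tdist x b) with hc | hc
      · rw [abs_sub_comm, abs_of_nonneg (sub_nonneg.2 (Real.log_le_log (by linarith) (by linarith)))]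
        refine (log_diff (by linarith) (by linarith) (by linarith)).trans ?_
        rw [add_comm (1 : ℝ)]
        exact div_le_div_of_nonneg_right (by norm_num) (by linarith)
      · rw [abs_of_nonneg (sub_nonneg.2 (Real.log_le_log (by linarith) (by linarith)))]
        refine (log_diff (by linarith) (by linarith) (by linarith)).trans ?_
        rw [div_le_div_iff₀ (by linarith) (by linarith)]
        linarith
    calc |f a - f b| ≤ |Real.log (1 + tdist x a) - Real.log (1 + tdist x b)| / ℓ := h3
      _ ≤ 2 / ((tdist x a : ℝ) + 1) / ℓ := div_le_div_of_nonneg_right h4 hℓ0.le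
      _ = _ := by rw [div_div]
  refine ⟨f, ?_, hf0, ?_⟩
  · rw [hf]
    have : tdist x x = 0 := by unfold tdist; simp
    simp [this]
  · -- sum over `b`
    have h1 : ∀ a, ∑ b, nnRate 2 L a b / 2 * (f a - f b) ^ 2 ≤
        if tdist x a < r + 1 then 8 / (((tdist x a : ℝ) + 1) ^ 2 * ℓ ^ 2) else 0 := by
      intro a
      by_cases hc : tdist x a < r + 1
      · rw [if_pos hc]
        have h2 : ∀ b, nnRate 2 L a b / 2 * (f a - f b) ^ 2 ≤
            nnRate 2 L a b * (2 / (((tdist x a : ℝ) + 1) ^ 2 * ℓ ^ 2)) := by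
          intro b
          by_cases hab : nnRate 2 L a b = 0
          · rw [hab]; simp
          · have h3 := hedge a b hab
            have h4 : (f a - f b) ^ 2 ≤ (2 / (((tdist x a : ℝ) + 1) * ℓ)) ^ 2 := by
              rw [← sq_abs (f a - f b)]
              exact pow_le_pow_left₀ (abs_nonneg _) h3 2
            have h5 := mul_le_mul_of_nonneg_left h4
              (by have := nn_nonneg (d := 2) (L := L) a b; linarith : 0 ≤ nnRate 2 L a b / 2)
            refine h5.trans (le_of_eq ?_)
            rw [div_pow, mul_pow]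
            ring
        refine (Finset.sum_le_sum fun b _ => h2 b).trans ?_
        rw [← Finset.sum_mul, nn_row hL]
        have : (2 : ℝ) * ((2 : ℕ) : ℝ) * (2 / (((tdist x a : ℝ) + 1) ^ 2 * ℓ ^ 2)) =
            8 / (((tdist x a : ℝ) + 1) ^ 2 * ℓ ^ 2) := by
          push_cast
          ring
        rw [this]
      · rw [if_neg hc]
        refine le_of_eq (Finset.sum_eq_zero fun b _ => ?_)
        by_cases hab : nnRate 2 L a b = 0
        · rw [hab]; ring
        · have h2 := hadj b a (hsym a b hab)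
          rw [hf0 a (by omega), hf0 b (by omega)]
          ring
    refine (Finset.sum_le_sum fun a _ => h1 a).trans ?_
    -- layers
    have h2 : ∑ a, (if tdist x a < r + 1 then 8 / (((tdist x a : ℝ) + 1) ^ 2 * ℓ ^ 2) else 0) =
        ∑ j ∈ Finset.range (r + 1),
          (((univ : Finset (Fin 2 → ZMod L)).filter fun y => tdist x y = j).card : ℝ) *
            (8 / (((j : ℝ) + 1) ^ 2 * ℓ ^ 2)) := by
      rw [← Finset.sum_filter]
      rw [← Finset.sum_fiberwise_of_maps_to (s := univ.filter fun a => tdist x a < r + 1)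
        (t := Finset.range (r + 1)) (g := fun a => tdist x a)
        (fun a ha => Finset.mem_range.2 (Finset.mem_filter.1 ha).2)]
      refine Finset.sum_congr rfl fun j hj => ?_
      have h3 : ∀ a ∈ (univ.filter fun a => tdist x a < r + 1).filter (fun a => tdist x a = j),
          8 / (((tdist x a : ℝ) + 1) ^ 2 * ℓ ^ 2) = 8 / (((j : ℝ) + 1) ^ 2 * ℓ ^ 2) := by
        intro a ha
        rw [(Finset.mem_filter.1 ha).2]
      rw [Finset.sum_congr rfl h3, Finset.sum_const, nsmul_eq_mul]
      congr 2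
      congr 1
      ext a
      simp only [Finset.mem_filter, mem_univ, true_and]
      have := Finset.mem_range.1 hj
      constructor
      · exact fun h => h.2
      · exact fun h => ⟨by omega, h⟩
    rw [h2]
    have h3 : ∀ j ∈ Finset.range (r + 1),
        (((univ : Finset (Fin 2 → ZMod L)).filter fun y => tdist x y = j).card : ℝ) *
            (8 / (((j : ℝ) + 1) ^ 2 * ℓ ^ 2)) ≤ 32 / ℓ ^ 2 * (1 / ((j : ℝ) + 1)) := by
      intro j _
      have h4 : ((((univ : Finset (Fin 2 → ZMod L)).filter fun y => tdist x y = j).card : ℕ) : ℝ) ≤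
          4 * ((j : ℝ) + 1) := by exact_mod_cast shell x j
      refine (mul_le_mul_of_nonneg_right h4 (by positivity)).trans (le_of_eq ?_)
      field_simp
      ring
    refine (Finset.sum_le_sum h3).trans ?_
    rw [← Finset.mul_sum, ← hℓ]
    have h4 := harm r
    rw [← hℓ] at h4
    have h5 : 1 + ℓ ≤ (1 + 1 / Real.log 2) * ℓ := by
      have : 1 ≤ 1 / Real.log 2 * ℓ := by
        rw [one_div, inv_mul_eq_div, le_div_iff₀ hl2, one_mul]
        exact hℓ2
      linarith
    calc 32 / ℓ ^ 2 * ∑ j ∈ Finset.range (r + 1), 1 / ((j : ℝ) + 1)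
        ≤ 32 / ℓ ^ 2 * ((1 + 1 / Real.log 2) * ℓ) :=
          mul_le_mul_of_nonneg_left (h4.trans h5) (by positivity)
      _ = _ := by field_simp

end Pool.Agent.Helper47K9.FD
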