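import Pool.Agent.Helper47K9.FD.Stm
import Pool.Agent.Helper47K9.SC.Duh

/-!
# [DET] the duality
-/

set_option autoImplicit false

namespace Pool.Agent.Helper47K9.FD

open Finset Equiv Pool.Agent.Y998.ST

section dt

variable {V : Type} [Fintype V] [DecidableEq V]

theorem PM_one : PM (1 : Perm V) = 1 := by
  ext a b
  unfold PM
  rw [Matrix.one_apply, Perm.one_apply]

theorem PM_mul (g h : Perm V) : PM g * PM h = PM (h * g) := by
  ext a b
  rw [Matrix.mul_apply]
  unfold PM
  simp only [ite_mul, one_mul, zero_mul]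
  rw [Finset.sum_ite_eq, if_pos (mem_univ _)]
  rfl

/-- `e_x - e_y` -/
def vv (x y : V) : V → ℝ := fun a => (if a = x then 1 else 0) - (if a = y then 1 else 0)

theorem PM_swap (x y : V) : PM (swap x y) - 1 = -Matrix.vecMulVec (vv x y) (vv x y) := by
  ext a b
  rw [Matrix.sub_apply, Matrix.neg_apply, Matrix.vecMulVec_apply, Matrix.one_apply]
  unfold PM vv
  by_cases hxy : x = y
  · subst hxy
    simp
  have hyx : ¬ y = x := fun h => hxy h.symm
  by_cases ha : a = x
  · subst ha
    rw [swap_apply_left]
    by_cases hb : b = a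
    · subst hb
      simp [hxy, hyx]
    · by_cases hb2 : b = y
      · subst hb2
        simp [hxy, hyx]
      · have h1 : ¬ y = b := fun h => hb2 h.symm
        have h2 : ¬ a = b := fun h => hb h.symm
        simp [hb, hb2, h1, h2]
  · by_cases ha2 : a = y
    · subst ha2
      rw [swap_apply_right]
      by_cases hb : b = a
      · subst hb
        simp [hxy, hyx]
      · by_cases hb2 : b = x
        · subst hb2
          simp [hxy, hyx]
        · have h1 : ¬ x = b := fun h => hb2 h.symm
          have h2 : ¬ a = b := fun h => hb h.symm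
          simp [hb, hb2, h1, h2]
    · rw [swap_apply_of_ne_of_ne ha ha2]
      simp [ha, ha2]

theorem gen_back {J : V → V → ℝ} (hs : ∀ x y, J x y = J y x) (h0 : ∀ x, J x x = 0)
    (f : V → ℝ) (b : V) :
    ∑ x, ∑ y, J x y / 2 * (f (swap x y b) - f b) = ∑ c, J b c * (f c - f b) := by
  rw [gen_one hs h0]
  have h4 : ∀ x, f x * GG J x b = J b x * f x - (if x = b then f x * ∑ c, J b c else 0) := by
    intro x
    unfold GG
    by_cases hx : x = b
    · subst hx
      rw [if_pos rfl, if_pos rfl, h0]
      ring
    · rw [if_neg hx, if_neg hx, hs x b]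
      ring
  simp only [h4, Finset.sum_sub_distrib]
  rw [Finset.sum_ite_eq', if_pos (Finset.mem_univ _), Finset.mul_sum, ← Finset.sum_sub_distrib]
  refine Finset.sum_congr rfl fun e _ => ?_
  ring

theorem PM_mulVec (g : Perm V) (M : Matrix V V ℝ) (a b : V) : (PM g * M) a b = M (g a) b := by
  rw [Matrix.mul_apply]
  unfold PM
  simp only [ite_mul, one_mul, zero_mul]
  rw [Finset.sum_ite_eq, if_pos (mem_univ _)]

end dt

theorem det (hD : S_DDET) : S_DET := by
  intro V _ _ J hs h0 t Y
  obtain ⟨F, hF⟩ : ∃ F : ℝ → Perm V → ℝ, F = fun s g => (1 + Y * PM g * qq J (t - s)).det :=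
    ⟨_, rfl⟩
  have hFd : ∀ (s : ℝ) (g : Perm V), HasDerivAt (fun u => F u g)
      (-∑ x, ∑ y, J x y / 2 * (F s (swap x y * g) - F s g)) s := by
    intro s g
    have h1 := hD V (fun u => 1 + Y * PM g * qq J (t - u)) s (V × V)
      (fun p => -(J p.1 p.2 / 2)) (fun p => -((Y * PM g).mulVec (vv p.1 p.2)))
      (fun p => Matrix.vecMul (vv p.1 p.2) (qq J (t - s))) ?_
    · rw [hF]
      refine h1.congr_deriv ?_
      rw [Fintype.sum_prod_type, ← Finset.sum_neg_distrib]
      refine Finset.sum_congr rfl fun x _ => ?_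
      rw [← Finset.sum_neg_distrib]
      refine Finset.sum_congr rfl fun y _ => ?_
      have e1 : Matrix.vecMulVec (-((Y * PM g).mulVec (vv x y)))
          (Matrix.vecMul (vv x y) (qq J (t - s))) =
          Y * PM g * (PM (swap x y) - 1) * qq J (t - s) := by
        rw [PM_swap, Matrix.neg_vecMulVec, Matrix.mul_neg, Matrix.neg_mul,
          Matrix.mul_vecMulVec, Matrix.vecMulVec_mul]
      have e2 : 1 + Y * PM g * qq J (t - s) + Matrix.vecMulVec (-((Y * PM g).mulVec (vv x y)))
          (Matrix.vecMul (vv x y) (qq J (t - s))) =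
          1 + Y * PM (swap x y * g) * qq J (t - s) := by
        rw [e1, ← PM_mul]
        simp only [Matrix.mul_sub, Matrix.sub_mul, Matrix.mul_one, ← Matrix.mul_assoc]
        abel
      simp only
      rw [e2]
      ring
    · intro a b
      have e1 : (fun u : ℝ => (1 + Y * PM g * qq J (t - u)) a b) =
          fun u => (1 : Matrix V V ℝ) a b + ∑ c, (Y * PM g) a c * qq J (t - u) c b := by
        funext u
        rw [Matrix.add_apply, Matrix.mul_apply]
      rw [e1]
      have h2 : ∀ c, HasDerivAt (fun u => qq J (t - u) c b)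
          (-(∑ e, J c e * (qq J (t - s) e b - qq J (t - s) c b))) s := fun c =>
        (Pool.Agent.Helper47K9.SC.DuhL.qq_back hs h0 (t - s) c b).comp_const_sub t s
      have h3 := (HasDerivAt.fun_sum (u := (univ : Finset V)) fun c _ =>
        (h2 c).const_mul ((Y * PM g) a c)).const_add ((1 : Matrix V V ℝ) a b)
      refine h3.congr_deriv ?_
      -- the velocity
      have e2 : ∀ c, ∑ e, J c e * (qq J (t - s) e b - qq J (t - s) c b) =
          ∑ x, ∑ y, J x y / 2 * (((PM (swap x y) - 1) * qq J (t - s)) c b) := by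
        intro c
        rw [← gen_back hs h0 (fun e => qq J (t - s) e b) c]
        refine Finset.sum_congr rfl fun x _ => Finset.sum_congr rfl fun y _ => ?_
        rw [Matrix.sub_mul, Matrix.one_mul, Matrix.sub_apply, PM_mulVec]
      rw [Matrix.sum_apply, Fintype.sum_prod_type]
      simp only [e2]
      have e3 : ∀ x y : V, ((-(J x y / 2)) • Matrix.vecMulVec (-((Y * PM g).mulVec (vv x y)))
          (Matrix.vecMul (vv x y) (qq J (t - s)))) a b =
          ∑ c, (Y * PM g) a c * -(J x y / 2 * (((PM (swap x y) - 1) * qq J (t - s)) c b)) := by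
        intro x y
        have e4 : Matrix.vecMulVec (-((Y * PM g).mulVec (vv x y)))
            (Matrix.vecMul (vv x y) (qq J (t - s))) =
            Y * PM g * ((PM (swap x y) - 1) * qq J (t - s)) := by
          rw [PM_swap, Matrix.neg_vecMulVec, ← Matrix.mul_assoc, Matrix.mul_neg, Matrix.neg_mul,
            Matrix.mul_vecMulVec, Matrix.vecMulVec_mul]
        rw [e4, Matrix.smul_apply, Matrix.mul_apply, smul_eq_mul, Finset.mul_sum]
        refine Finset.sum_congr rfl fun c _ => ?_
        ring
      simp only [e3]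
      have e5 : ∀ c, (Y * PM g) a c * -∑ x, ∑ y, J x y / 2 *
          (((PM (swap x y) - 1) * qq J (t - s)) c b) =
          ∑ x, ∑ y, (Y * PM g) a c * -(J x y / 2 *
            (((PM (swap x y) - 1) * qq J (t - s)) c b)) := by
        intro c
        rw [← Finset.sum_neg_distrib, Finset.mul_sum]
        refine Finset.sum_congr rfl fun x _ => ?_
        rw [← Finset.sum_neg_distrib, Finset.mul_sum]
      rw [Finset.sum_congr rfl fun c _ => e5 c, Finset.sum_comm]
      refine Finset.sum_congr rfl fun x _ => ?_
      rw [Finset.sum_comm]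
  have hΦ : ∀ s, HasDerivAt (fun u => stirExp J u (fun g => F u g)) 0 s := by
    intro s
    have hall : HasDerivAt (fun u => ∑ g, stirLaw J u g * F u g)
        (∑ g, ((∑ a, ∑ b, J a b / 2 * (stirLaw J s (swap a b * g) - stirLaw J s g)) * F s g +
          stirLaw J s g * (-∑ x, ∑ y, J x y / 2 * (F s (swap x y * g) - F s g)))) s :=
      HasDerivAt.fun_sum (u := (Finset.univ : Finset (Perm V))) fun g _ =>
        (law_deriv J s g).fun_mul (hFd s g)
    refine hall.congr_deriv ?_
    rw [Finset.sum_add_distrib, Pool.Agent.Helper47K9.SC.DuhL.law_sum]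
    unfold stirExp
    rw [← Finset.sum_add_distrib]
    refine Finset.sum_eq_zero fun g _ => ?_
    beta_reduce
    ring
  have hc := is_const_of_deriv_eq_zero (fun s => (hΦ s).differentiableAt) (fun s => (hΦ s).deriv)
  have h1 := hc t 0
  simp only [hF, sub_self, sub_zero, qq_zero, Matrix.mul_one] at h1
  rw [h1]
  unfold stirExp
  simp only [law_zero, ite_mul, one_mul, zero_mul]
  rw [Finset.sum_ite_eq', if_pos (mem_univ _), PM_one, Matrix.mul_one]

end Pool.Agent.Helper47K9.FD
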