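import Pool.Agent.Helper47K9.FD.Stm
import Pool.Agent.Helper47K9.SC.Duh
import Pool.Agent.Y998.LP.Law2

/-!
# [SYM], [ENE] symmetry and energy of the kernel
-/

set_option autoImplicit false

namespace Pool.Agent.Helper47K9.FD

open Finset Equiv Pool.Agent.Y998.ST

theorem sym : S_SYM := by
  intro V _ _ J _ _ t a b
  unfold qq hop stirExp
  rw [← Equiv.sum_comp (Equiv.inv (Perm V))]
  refine Finset.sum_congr rfl fun g _ => ?_
  simp only [Equiv.inv_apply]
  rw [Pool.Agent.Y998.LP.law_inv]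
  congr 1
  have h : (g⁻¹ : Perm V) a = b ↔ g b = a := by
    rw [Perm.inv_eq_iff_eq]
    exact eq_comm
  simp only [h]

section en

variable {V : Type} [Fintype V] [DecidableEq V]

/-- the semigroup -/
noncomputable def Pf (J : V → V → ℝ) (t : ℝ) (f : V → ℝ) (a : V) : ℝ := ∑ b, qq J t a b * f b

/-- the energy -/
noncomputable def Eg (J : V → V → ℝ) (f : V → ℝ) : ℝ := ∑ a, ∑ b, J a b / 2 * (f a - f b) ^ 2

theorem Pf_deriv {J : V → V → ℝ} (hs : ∀ x y, J x y = J y x) (h0 : ∀ x, J x x = 0) (f : V → ℝ)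
    (t : ℝ) (a : V) :
    HasDerivAt (fun u => Pf J u f a) (∑ c, J a c * (Pf J t f c - Pf J t f a)) t :=
  Pool.Agent.Helper47K9.SC.DuhL.PP_deriv hs h0 f t a

theorem gen_energy {J : V → V → ℝ} (hs : ∀ x y, J x y = J y x) (f : V → ℝ) :
    ∑ a, f a * ∑ c, J a c * (f c - f a) = -Eg J f := by
  have e1 : ∑ a, f a * ∑ c, J a c * (f c - f a) = ∑ a, ∑ c, J a c * (f a * (f c - f a)) := by
    refine Finset.sum_congr rfl fun a _ => ?_
    rw [Finset.mul_sum]
    exact Finset.sum_congr rfl fun c _ => by ring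
  have e2 : ∑ a, ∑ c, J a c * (f a * (f c - f a)) = ∑ a, ∑ c, J a c * (f c * (f a - f c)) := by
    rw [Finset.sum_comm]
    refine Finset.sum_congr rfl fun a _ => Finset.sum_congr rfl fun c _ => ?_
    rw [hs c a]
  have e3 : 2 * ∑ a, ∑ c, J a c * (f a * (f c - f a)) = -2 * Eg J f := by
    have e4 : 2 * ∑ a, ∑ c, J a c * (f a * (f c - f a)) =
        ∑ a, ∑ c, J a c * (f a * (f c - f a)) + ∑ a, ∑ c, J a c * (f c * (f a - f c)) := by
      rw [← e2]; ring
    rw [e4]
    unfold Eg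
    rw [← Finset.sum_add_distrib, Finset.mul_sum]
    refine Finset.sum_congr rfl fun a _ => ?_
    rw [← Finset.sum_add_distrib, Finset.mul_sum]
    refine Finset.sum_congr rfl fun c _ => ?_
    ring
  rw [e1]
  linarith

theorem Pf_zero (J : V → V → ℝ) (f : V → ℝ) (a : V) : Pf J 0 f a = f a := by
  unfold Pf
  rw [qq_zero]
  simp [Matrix.one_apply]

/-- the bilinear form of the generator, symmetric -/
theorem sq_deriv {J : V → V → ℝ} (hs : ∀ x y, J x y = J y x) (h0 : ∀ x, J x x = 0) (f : V → ℝ)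
    (t : ℝ) : HasDerivAt (fun u => ∑ a, Pf J u f a ^ 2) (-2 * Eg J (Pf J t f)) t := by
  have h1 := HasDerivAt.fun_sum (u := (univ : Finset V)) fun a _ => (Pf_deriv hs h0 f t a).fun_pow 2
  refine h1.congr_deriv ?_
  have e1 := gen_energy hs (Pf J t f)
  have e2 : ∑ a, ((2 : ℕ) : ℝ) * Pf J t f a ^ (2 - 1) * ∑ c, J a c * (Pf J t f c - Pf J t f a) =
      2 * ∑ a, Pf J t f a * ∑ c, J a c * (Pf J t f c - Pf J t f a) := by
    rw [Finset.mul_sum]
    refine Finset.sum_congr rfl fun a _ => ?_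
    norm_num
    ring
  rw [e2, e1]
  ring

theorem eg_deriv {J : V → V → ℝ} (hs : ∀ x y, J x y = J y x) (h0 : ∀ x, J x x = 0) (f : V → ℝ)
    (t : ℝ) : HasDerivAt (fun u => Eg J (Pf J u f))
      (-2 * ∑ a, (∑ c, J a c * (Pf J t f c - Pf J t f a)) ^ 2) t := by
  unfold Eg
  have h1 := HasDerivAt.fun_sum (u := (univ : Finset V)) fun a _ =>
    HasDerivAt.fun_sum (u := (univ : Finset V)) fun b _ =>
      (((Pf_deriv hs h0 f t a).fun_sub (Pf_deriv hs h0 f t b)).fun_pow 2).const_mul (J a b / 2)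
  refine h1.congr_deriv ?_
  obtain ⟨p, hp⟩ : ∃ p : V → ℝ, p = Pf J t f := ⟨_, rfl⟩
  obtain ⟨G, hG⟩ : ∃ G : V → ℝ, G = fun a => ∑ c, J a c * (Pf J t f c - Pf J t f a) := ⟨_, rfl⟩
  have e1 : ∑ a, ∑ b, J a b / 2 * (((2 : ℕ) : ℝ) * (Pf J t f a - Pf J t f b) ^ (2 - 1) *
      ((∑ c, J a c * (Pf J t f c - Pf J t f a)) - ∑ c, J b c * (Pf J t f c - Pf J t f b))) =
      ∑ a, ∑ b, J a b * ((p a - p b) * (G a - G b)) := by
    rw [hp, hG]
    refine Finset.sum_congr rfl fun a _ => Finset.sum_congr rfl fun b _ => ?_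
    norm_num
    ring
  have e2 : ∑ a, ∑ b, J a b * ((p a - p b) * (G a - G b)) =
      2 * ∑ a, ∑ b, J a b * ((p a - p b) * G a) := by
    have e3 : ∑ a, ∑ b, J a b * ((p b - p a) * G b) = ∑ a, ∑ b, J a b * ((p a - p b) * G a) := by
      rw [Finset.sum_comm]
      refine Finset.sum_congr rfl fun a _ => Finset.sum_congr rfl fun b _ => ?_
      rw [hs b a]
    have e4 : ∑ a, ∑ b, J a b * ((p a - p b) * (G a - G b)) =
        ∑ a, ∑ b, J a b * ((p a - p b) * G a) + ∑ a, ∑ b, J a b * ((p b - p a) * G b) := by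
      rw [← Finset.sum_add_distrib]
      refine Finset.sum_congr rfl fun a _ => ?_
      rw [← Finset.sum_add_distrib]
      refine Finset.sum_congr rfl fun b _ => ?_
      ring
    rw [e4, e3]
    ring
  have e3 : ∑ a, ∑ b, J a b * ((p a - p b) * G a) = -∑ a, G a ^ 2 := by
    rw [← Finset.sum_neg_distrib]
    refine Finset.sum_congr rfl fun a _ => ?_
    have e4 : ∑ b, J a b * ((p a - p b) * G a) = -(∑ b, J a b * (p b - p a)) * G a := by
      rw [← Finset.sum_neg_distrib, Finset.sum_mul]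
      refine Finset.sum_congr rfl fun b _ => ?_
      ring
    have e5 : ∑ b, J a b * (p b - p a) = G a := by rw [hG, hp]
    rw [e4, e5]
    ring
  rw [e1, e2, e3, hG]
  ring

theorem EN_sq (hSYM : S_SYM) {J : V → V → ℝ} (hs : ∀ x y, J x y = J y x) (h0 : ∀ x, J x x = 0)
    (t : ℝ) (f : V → ℝ) : EN (qq J t) f = ∑ a, Pf J (t / 2) f a ^ 2 := by
  have h1 : qq J t = qq J (t / 2) * qq J (t / 2) := by
    rw [← qq_add hs h0]
    congr 1
    ring
  unfold EN Pf
  have e1 : ∀ a b, f a * qq J t a b * f b =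
      ∑ c, (qq J (t / 2) c a * f a) * (qq J (t / 2) c b * f b) := by
    intro a b
    rw [h1, Matrix.mul_apply, Finset.mul_sum, Finset.sum_mul]
    refine Finset.sum_congr rfl fun c _ => ?_
    rw [hSYM V J hs h0 (t / 2) a c]
    ring
  simp only [e1]
  have e2 : ∀ c, (∑ b, qq J (t / 2) c b * f b) ^ 2 =
      ∑ a, ∑ b, (qq J (t / 2) c a * f a) * (qq J (t / 2) c b * f b) := by
    intro c
    rw [sq, Finset.sum_mul_sum]
  simp only [e2]
  calc ∑ a, ∑ b, ∑ c, qq J (t / 2) c a * f a * (qq J (t / 2) c b * f b)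
      = ∑ a, ∑ c, ∑ b, qq J (t / 2) c a * f a * (qq J (t / 2) c b * f b) :=
        Finset.sum_congr rfl fun a _ => Finset.sum_comm
    _ = _ := Finset.sum_comm

end en

theorem ene (hSYM : S_SYM) : S_ENE := by
  intro V _ _ J hJ hs h0 t ht f
  have hEg : ∀ p : V → ℝ, 0 ≤ Eg J p := fun p => Finset.sum_nonneg fun a _ =>
    Finset.sum_nonneg fun b _ => mul_nonneg (by linarith [hJ a b]) (sq_nonneg _)
  have h1 := EN_sq hSYM hs h0 t f
  have hz : ∑ a, Pf J 0 f a ^ 2 = ∑ a, f a ^ 2 :=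
    Finset.sum_congr rfl fun a _ => by rw [Pf_zero]
  have hant : Antitone fun u => ∑ a, Pf J u f a ^ 2 := by
    refine antitone_of_hasDerivAt_nonpos (fun u => sq_deriv hs h0 f u) fun u => ?_
    have := hEg (Pf J u f)
    change -2 * Eg J (Pf J u f) ≤ 0
    linarith
  have hegant : Antitone fun u => Eg J (Pf J u f) := by
    refine antitone_of_hasDerivAt_nonpos (fun u => eg_deriv hs h0 f u) fun u => ?_
    have : 0 ≤ ∑ a, (∑ c, J a c * (Pf J u f c - Pf J u f a)) ^ 2 :=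
      Finset.sum_nonneg fun a _ => sq_nonneg _
    change -2 * ∑ a, (∑ c, J a c * (Pf J u f c - Pf J u f a)) ^ 2 ≤ 0
    linarith
  have hE0 : Eg J (Pf J 0 f) = Eg J f := by
    unfold Eg
    simp only [Pf_zero]
  refine ⟨?_, ?_, ?_⟩
  · rw [h1]
    exact Finset.sum_nonneg fun a _ => sq_nonneg _
  · rw [h1, ← hz]
    exact hant (by linarith : (0 : ℝ) ≤ t / 2)
  · rw [h1, ← hz]
    -- `u ↦ ∑ (P_u f)² + 2 u E(f)` is nondecreasing on `[0, ∞)`
    have hmono : MonotoneOn (fun u => (∑ a, Pf J u f a ^ 2) + 2 * Eg J f * u) (Set.Ici 0) := by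
      refine monotoneOn_of_deriv_nonneg (convex_Ici 0) ?_ ?_ ?_
      · refine ContinuousOn.add ?_ (by fun_prop)
        exact fun u _ => (sq_deriv hs h0 f u).continuousAt.continuousWithinAt
      · intro u _
        exact ((sq_deriv hs h0 f u).add ((hasDerivAt_id' u).const_mul (2 * Eg J f))).differentiableAt.differentiableWithinAt
      · intro u hu
        rw [interior_Ici, Set.mem_Ioi] at hu
        have h2 := ((sq_deriv hs h0 f u).fun_add ((hasDerivAt_id' u).const_mul (2 * Eg J f))).deriv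
        rw [h2]
        have h3 := hegant hu.le
        simp only [hE0] at h3
        linarith
    have h2 := hmono (Set.mem_Ici.2 le_rfl) (Set.mem_Ici.2 (by linarith : (0 : ℝ) ≤ t / 2))
      (by linarith)
    simp only [mul_zero, add_zero] at h2
    have e : (∑ a, ∑ b, J a b / 2 * (f a - f b) ^ 2) = Eg J f := rfl
    rw [e]
    linarith

end Pool.Agent.Helper47K9.FD
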