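import Pool.Agent.Helper47K9.FD.Tel

/-!
# The determinant formula: the final statements
-/

set_option autoImplicit false

namespace Pool.Agent.Helper47K9.FD

open Finset Equiv Pool.Agent.Y998.ST

section gen

variable {V : Type} [Fintype V] [DecidableEq V]

theorem exp_sub (J : V → V → ℝ) (t : ℝ) (F G : Perm V → ℝ) :
    stirExp J t (fun g => F g - G g) = stirExp J t F - stirExp J t G := by
  unfold stirExp
  rw [← Finset.sum_sub_distrib]
  exact Finset.sum_congr rfl fun g _ => by ring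

theorem esc_compl (S : Finset V) (g : Perm V) :
    esc Sᶜ g ↔ ∀ x, ∃ y ∈ S, g.SameCycle x y := by
  unfold esc
  constructor
  · intro h x
    by_cases hx : x ∈ S
    · exact ⟨x, hx, Equiv.Perm.SameCycle.refl g x⟩
    · obtain ⟨y, hy, h1⟩ := h x (by rw [mem_compl]; exact hx)
      rw [mem_compl, not_not] at hy
      exact ⟨y, hy, h1⟩
  · intro h x _
    obtain ⟨y, hy, h1⟩ := h x
    exact ⟨y, by rw [mem_compl, not_not]; exact hy, h1⟩

theorem esc_erase (D : Finset V) (x : V) (g : Perm V) :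
    esc (D.erase x) g ↔ ∀ z ∈ D, ¬ g.SameCycle x z → ∃ y, y ∉ D ∧ g.SameCycle z y := by
  unfold esc
  constructor
  · intro h z hz hxz
    have hne : z ≠ x := fun h1 => hxz (h1 ▸ Equiv.Perm.SameCycle.refl g x)
    obtain ⟨y, hy, h1⟩ := h z (mem_erase.2 ⟨hne, hz⟩)
    refine ⟨y, fun hyD => ?_, h1⟩
    have hyx : y = x := by
      by_contra h2
      exact hy (mem_erase.2 ⟨h2, hyD⟩)
    exact hxz (hyx ▸ h1.symm)
  · intro h z hz
    have hz2 := mem_erase.1 hz
    by_cases hxz : g.SameCycle x z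
    · exact ⟨x, by simp, hxz.symm⟩
    · obtain ⟨y, hy, h1⟩ := h z hz2.2 hxz
      exact ⟨y, fun h2 => hy (mem_erase.1 h2).2, h1⟩

/-- the event that the cycle of `x` is contained in `D` and no other cycle is -/
theorem esc_split (D : Finset V) (x : V) (hx : x ∈ D) (g : Perm V) :
    ((∀ y, g.SameCycle x y → y ∈ D) ∧
      ∀ z ∈ D, ¬ g.SameCycle x z → ∃ y, y ∉ D ∧ g.SameCycle z y) ↔
    (esc (D.erase x) g ∧ ¬ esc D g) := by
  rw [esc_erase]
  constructor
  · rintro ⟨h1, h2⟩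
    refine ⟨h2, fun h3 => ?_⟩
    obtain ⟨y, hy, h4⟩ := h3 x hx
    exact hy (h1 y h4)
  · rintro ⟨h1, h2⟩
    refine ⟨?_, h1⟩
    by_contra h3
    push Not at h3
    obtain ⟨y, hxy, hy⟩ := h3
    refine h2 fun z hz => ?_
    by_cases hxz : g.SameCycle x z
    · exact ⟨y, hy, hxz.symm.trans hxy⟩
    · exact h1 z hz hxz

open Classical in
/-- the probability that the cycle of `x` is contained in `D` and no other cycle is -/
noncomputable def IN (J : V → V → ℝ) (t : ℝ) (D : Finset V) (x : V) : ℝ :=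
  stirExp J t (fun g => if (∀ y, g.SameCycle x y → y ∈ D) ∧
    ∀ z ∈ D, ¬ g.SameCycle x z → ∃ y, y ∉ D ∧ g.SameCycle z y then 1 else 0)

open Classical in
/-- the probability that no cycle avoiding `x` is contained in `D` -/
noncomputable def AV (J : V → V → ℝ) (t : ℝ) (D : Finset V) (x : V) : ℝ :=
  stirExp J t (fun g => if
    ∀ z ∈ D, ¬ g.SameCycle x z → ∃ y, y ∉ D ∧ g.SameCycle z y then 1 else 0)

theorem AV_eq (J : V → V → ℝ) (t : ℝ) (D : Finset V) (x : V) :
    AV J t D x = NC J t (D.erase x) := by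
  classical
  unfold AV NC
  congr 1
  funext g
  simp only [← esc_erase]

theorem IN_eq (J : V → V → ℝ) (t : ℝ) (D : Finset V) (x : V) (hx : x ∈ D) :
    IN J t D x = NC J t (D.erase x) - NC J t D := by
  classical
  unfold IN NC
  rw [← exp_sub]
  congr 1
  funext g
  simp only [esc_split D x hx]
  by_cases h1 : esc (D.erase x) g
  · by_cases h2 : esc D g
    · simp [h1, h2]
    · simp [h1, h2]
  · have h2 : ¬ esc D g := by
      intro h2
      apply h1
      rw [esc_erase]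
      intro z hz _
      exact h2 z hz
    simp [h1, h2]

theorem minor (hDET : S_DET) (hNIL : S_NIL) (hSUB : S_SUB) {J : V → V → ℝ}
    (hs : ∀ x y, J x y = J y x)
    (h0 : ∀ x, J x x = 0) (t : ℝ) (D : Finset V) :
    NC J t D = (Matrix.of fun a b : {a // a ∈ D} =>
      (if a = b then (1 : ℝ) else 0) - hop J t a b).det := by
  rw [form hDET hNIL hs h0, hSUB]
  congr 1
  ext a b
  rw [Matrix.submatrix_apply, Matrix.sub_apply, Matrix.of_apply, Matrix.one_apply]
  have h1 : ((a : V) = (b : V)) ↔ a = b := Subtype.ext_iff.symm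
  simp only [h1]
  rfl

end gen

/-- `d ≥ 3`: given that no other cycle is contained in `D`, the cycle of `x` leaves `D` -/
theorem trans3 (hDET : S_DET) (hNIL : S_NIL) (hSCH : S_SCH) (hSYM : S_SYM) (hENE : S_ENE)
    (hPSI : S_PSI) (hRET : S_RET) (d : ℕ) (hd : 3 ≤ d) : ∃ C : ℝ, 0 < C ∧
    ∀ (L : ℕ) [NeZero L], 3 ≤ L → ∀ t : ℝ, 1 ≤ t → ∀ (D : Finset (Fin d → ZMod L)),
    D ≠ Finset.univ → ∀ x ∈ D,
    IN (nnRate d L) t D x ≤
      (1 / (((L : ℝ) ^ d - D.card) + 1) + C / Real.sqrt t ^ d) * AV (nnRate d L) t D x := by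
  obtain ⟨C, hC, h⟩ := beta hRET d hd
  refine ⟨4 * C, by positivity, fun L _ hL t ht D hD x hx => ?_⟩
  obtain ⟨b, hb, hbs⟩ := h L hL t ht
  have ht0 : 0 < t := by linarith
  have hst : 0 < Real.sqrt t := Real.sqrt_pos.2 ht0
  obtain ⟨β, hβ⟩ : ∃ β : ℝ, β = C / Real.sqrt t ^ d := ⟨_, rfl⟩
  have hβ0 : 0 ≤ β := by rw [hβ]; positivity
  rw [← hβ] at hbs
  have hS : (Dᶜ).Nonempty := by
    rw [Finset.nonempty_iff_ne_empty]
    intro h1
    exact hD (by rwa [Finset.compl_eq_empty_iff] at h1)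
  have h1 := low hDET hNIL hSCH hSYM hENE hPSI nn_nonneg nn_symm (nn_diag hL) ht0.le b β hβ0 hb hbs
    Dᶜ hS x (by rw [mem_compl, not_not]; exact hx)
  rw [← compl_erase, compl_compl] at h1
  have hcard : ((Dᶜ).card : ℝ) = (L : ℝ) ^ d - D.card := by
    rw [Finset.card_compl, Nat.cast_sub (Finset.card_le_univ D), Fintype.card_fun, ZMod.card,
      Fintype.card_fin]
    push_cast
    rfl
  rw [AV_eq, IN_eq _ _ _ _ hx, ← hcard]
  obtain ⟨k, hk⟩ : ∃ k : ℝ, k = ((Dᶜ).card : ℝ) := ⟨_, rfl⟩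
  have hk0 : 0 < k := by rw [hk]; exact_mod_cast hS.card_pos
  rw [← hk] at h1 ⊢
  obtain ⟨p, hp⟩ : ∃ p : ℝ, p = NC (nnRate d L) t (D.erase x) := ⟨_, rfl⟩
  obtain ⟨q, hq⟩ : ∃ q : ℝ, q = NC (nnRate d L) t D := ⟨_, rfl⟩
  have hp0 : 0 ≤ p := by rw [hp]; exact NC_nonneg nn_nonneg ht0.le _
  have hq0 : 0 ≤ q := by rw [hq]; exact NC_nonneg nn_nonneg ht0.le _
  rw [← hp, ← hq] at h1 ⊢
  have e1 : 4 * C / Real.sqrt t ^ d = 4 * β := by rw [hβ]; ring
  rw [e1]
  have h2 : p * k ≤ (k + 1 + 4 * k * β) * q := by linarith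
  have h3 : k + 1 + 4 * k * β ≤ (k + 1) * (1 + 4 * β) := by nlinarith
  have hpos : 0 < (k + 1) * (1 + 4 * β) := by positivity
  have h4 : p * k ≤ ((k + 1) * (1 + 4 * β)) * q := h2.trans (mul_le_mul_of_nonneg_right h3 hq0)
  -- p * (k / (k + 1)) (1 - 4 β) ≤ q
  have h5 : p * k * (1 - 4 * β) ≤ (k + 1) * q := by
    by_cases hs : 1 - 4 * β ≤ 0
    · have : p * k * (1 - 4 * β) ≤ 0 :=
        mul_nonpos_of_nonneg_of_nonpos (by positivity) hs
      exact this.trans (by positivity)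
    · push Not at hs
      have h6 := mul_le_mul_of_nonneg_right h4 hs.le
      refine h6.trans ?_
      have h7 : (1 + 4 * β) * (1 - 4 * β) ≤ 1 := by nlinarith
      calc (k + 1) * (1 + 4 * β) * q * (1 - 4 * β) = (k + 1) * q * ((1 + 4 * β) * (1 - 4 * β)) := by
            ring
        _ ≤ (k + 1) * q * 1 := mul_le_mul_of_nonneg_left h7 (by positivity)
        _ = _ := by ring
  have h6 : (k + 1) * (p - q) ≤ (k + 1) * ((1 / (k + 1) + 4 * β) * p) := by
    have e2 : (k + 1) * ((1 / (k + 1) + 4 * β) * p) = p + 4 * β * (k + 1) * p := by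
      field_simp
    rw [e2]
    nlinarith [mul_nonneg hβ0 hp0]
  exact le_of_mul_le_mul_left h6 (by linarith)

/-- `d = 2`: given that no other cycle is contained in `D`, the cycle of `x` stays in `D` -/
theorem rec2 (hDET : S_DET) (hNIL : S_NIL) (hSCH : S_SCH) (hSYM : S_SYM) (hENE : S_ENE)
    (hCAP : S_CAP) : ∃ C : ℝ, 0 < C ∧
    ∀ (L : ℕ) [NeZero L], 3 ≤ L → ∀ t : ℝ, 0 ≤ t → ∀ (x : Fin 2 → ZMod L) (r : ℕ), 1 ≤ r →
    ∀ (D : Finset (Fin 2 → ZMod L)), (∀ y, tdist x y < r → y ∈ D) →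
    (1 - C * t / Real.log (1 + r)) * AV (nnRate 2 L) t D x ≤ IN (nnRate 2 L) t D x := by
  obtain ⟨C, hC, h⟩ := hCAP
  refine ⟨C, hC, fun L _ hL t ht x r hr D hD => ?_⟩
  obtain ⟨f, hfx, hf0, hen⟩ := h L hL x r hr
  have hx : x ∈ D := by
    refine hD x ?_
    have : tdist x x = 0 := by unfold tdist; simp
    omega
  have h1 := (hSCH (Fin 2 → ZMod L) (1 - qq (nnRate 2 L) t)
    (M_symm hSYM nn_symm (nn_diag hL) t) (M_nonneg hENE nn_nonneg nn_symm (nn_diag hL) ht) D x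
    hx).1 f hfx (fun a ha => hf0 a (by
      by_contra h2
      exact ha (hD a (not_le.1 h2))))
  rw [← form hDET hNIL nn_symm (nn_diag hL), ← form hDET hNIL nn_symm (nn_diag hL), EN_one_sub]
    at h1
  have h2 := (hENE _ (nnRate 2 L) nn_nonneg nn_symm (nn_diag hL) t ht f).2.2
  have h3 : (∑ a, f a ^ 2) - EN (qq (nnRate 2 L) t) f ≤ C * t / Real.log (1 + r) := by
    refine h2.trans ?_
    calc t * ∑ a, ∑ b, nnRate 2 L a b / 2 * (f a - f b) ^ 2 ≤ t * (C / Real.log (1 + r)) :=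
          mul_le_mul_of_nonneg_left hen ht
      _ = _ := by ring
  rw [AV_eq, IN_eq _ _ _ _ hx]
  have h4 := NC_nonneg (J := nnRate 2 L) nn_nonneg ht (D.erase x)
  have h5 := mul_le_mul_of_nonneg_right h3 h4
  linarith

/-- every cycle meets `S` -/
noncomputable def MT {V : Type} [Fintype V] [DecidableEq V] (J : V → V → ℝ) (t : ℝ)
    (S : Finset V) : ℝ :=
  open Classical in stirExp J t (fun g => if ∀ x, ∃ y ∈ S, g.SameCycle x y then 1 else 0)

theorem MT_eq {V : Type} [Fintype V] [DecidableEq V] (J : V → V → ℝ) (t : ℝ) (S : Finset V) :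
    MT J t S = NC J t Sᶜ := by
  classical
  unfold MT NC
  congr 1
  funext g
  simp only [esc_compl]

theorem meet3 (hDET : S_DET) (hNIL : S_NIL) (hSCH : S_SCH) (hSYM : S_SYM) (hENE : S_ENE)
    (hPSI : S_PSI) (hRET : S_RET) (d : ℕ) (hd : 3 ≤ d) : ∃ C : ℝ, 0 < C ∧
    ∀ (L : ℕ) [NeZero L], 3 ≤ L → ∀ t : ℝ, 1 ≤ t → ∀ (S T : Finset (Fin d → ZMod L)),
    S.Nonempty → S ⊆ T →
    0 < MT (nnRate d L) t T ∧
    MT (nnRate d L) t S / MT (nnRate d L) t T ≤ (S.card : ℝ) / T.card ∧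
    (S.card : ℝ) / T.card ≤ (1 + C / Real.sqrt t ^ d) ^ (T.card - S.card) *
      (MT (nnRate d L) t S / MT (nnRate d L) t T) := by
  obtain ⟨C, hC, h⟩ := beta hRET d hd
  refine ⟨4 * C, by positivity, fun L _ hL t ht S T hS hST => ?_⟩
  obtain ⟨b, hb, hbs⟩ := h L hL t ht
  have ht0 : 0 < t := by linarith
  have hst : 0 < Real.sqrt t := Real.sqrt_pos.2 ht0
  obtain ⟨β, hβ⟩ : ∃ β : ℝ, β = C / Real.sqrt t ^ d := ⟨_, rfl⟩
  have hβ0 : 0 ≤ β := by rw [hβ]; positivity
  rw [← hβ] at hbs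
  have e1 : 4 * C / Real.sqrt t ^ d = 4 * β := by rw [hβ]; ring
  rw [e1]
  have hboth : ∀ S T : Finset (Fin d → ZMod L), S.Nonempty → S ⊆ T →
      (T.card : ℝ) * MT (nnRate d L) t S ≤ S.card * MT (nnRate d L) t T ∧
      (S.card : ℝ) * MT (nnRate d L) t T ≤
        (1 + 4 * β) ^ (T \ S).card * (T.card * MT (nnRate d L) t S) := by
    intro S T hS hST
    rw [MT_eq, MT_eq]
    exact both hDET hNIL hSCH hSYM hENE hPSI nn_nonneg nn_symm (nn_diag hL) ht0.le b β hβ0 hb hbs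
      S T hS hST
  have huniv : MT (nnRate d L) t Finset.univ = 1 := by
    unfold MT
    have e : (fun g : Perm (Fin d → ZMod L) => (open Classical in
        if ∀ x, ∃ y ∈ (Finset.univ : Finset (Fin d → ZMod L)), g.SameCycle x y
        then (1 : ℝ) else 0)) = fun _ => 1 := by
      funext g
      rw [if_pos]
      intro x
      exact ⟨x, Finset.mem_univ _, Equiv.Perm.SameCycle.refl g x⟩
    rw [e, exp_const]
  have hT : T.Nonempty := hS.mono hST
  have hTc : (0 : ℝ) < T.card := by exact_mod_cast hT.card_pos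
  have hSc : (0 : ℝ) < S.card := by exact_mod_cast hS.card_pos
  have hpos : 0 < MT (nnRate d L) t T := by
    have h1 := (hboth T Finset.univ hT (Finset.subset_univ _)).2
    rw [huniv, mul_one] at h1
    by_contra h2
    push Not at h2
    have h3 : (1 + 4 * β) ^ (Finset.univ \ T).card *
        (((Finset.univ : Finset (Fin d → ZMod L)).card : ℝ) * MT (nnRate d L) t T) ≤ 0 :=
      mul_nonpos_of_nonneg_of_nonpos (by positivity)
        (mul_nonpos_of_nonneg_of_nonpos (by positivity) h2)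
    linarith
  obtain ⟨h1, h2⟩ := hboth S T hS hST
  refine ⟨hpos, ?_, ?_⟩
  · rw [div_le_div_iff₀ hpos hTc]
    linarith
  · have hc : (T \ S).card = T.card - S.card := Finset.card_sdiff_of_subset hST
    rw [hc] at h2
    rw [← mul_div_assoc, div_le_div_iff₀ hTc hpos]
    calc (S.card : ℝ) * MT (nnRate d L) t T
        ≤ (1 + 4 * β) ^ (T.card - S.card) * (T.card * MT (nnRate d L) t S) := h2
      _ = _ := by ring

end Pool.Agent.Helper47K9.FD
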