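import Pool.Agent.Helper47K9.FD.Stm

set_option autoImplicit false

namespace Pool.Agent.Helper47K9.FD

open Finset Equiv

namespace NilL

variable {V : Type} [Fintype V] [DecidableEq V]

theorem entry (g : Perm V) (D : Finset V) (a b : V) :
    ((Matrix.diagonal fun a => if a ∈ D then (1 : ℝ) else 0) * PM g) a b =
      if a ∈ D ∧ g a = b then 1 else 0 := by
  rw [Matrix.diagonal_mul]
  by_cases h : a ∈ D <;> by_cases h' : g a = b <;> simp [PM, h, h']

theorem pow_entry (g : Perm V) (D : Finset V) (k : ℕ) (a b : V) :
    (((Matrix.diagonal fun a => if a ∈ D then (1 : ℝ) else 0) * PM g) ^ k) a b =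
      if (∀ i < k, (g ^ i) a ∈ D) ∧ (g ^ k) a = b then 1 else 0 := by
  induction k generalizing a with
  | zero => simp [Matrix.one_apply]
  | succ k ih =>
    rw [pow_succ', Matrix.mul_apply]
    simp only [entry, ih]
    by_cases ha : a ∈ D
    · rw [Finset.sum_eq_single (g a)]
      · have h1 : ∀ i, (g ^ (i + 1)) a = (g ^ i) (g a) := fun i => by
          rw [pow_succ, Perm.mul_apply]
        have h2 : (∀ i < k + 1, (g ^ i) a ∈ D) ↔ ∀ i < k, (g ^ i) (g a) ∈ D := by
          constructor
          · intro h i hi
            rw [← h1]
            exact h _ (by omega)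
          · intro h i hi
            rcases i with _ | i
            · simpa using ha
            · rw [h1]
              exact h _ (by omega)
        simp only [h2, h1]
        simp [ha]
      · intro c _ hc
        simp [Ne.symm hc]
      · simp
    · have h2 : ¬ (∀ i < k + 1, (g ^ i) a ∈ D) := fun h => ha (by simpa using h 0 (by omega))
      rw [if_neg (fun h => h2 h.1)]
      simp [ha]

end NilL

open Classical in
theorem nil : S_NIL := by
  intro V _ _ g D
  by_cases h : esc D g
  · rw [if_pos h]
    set N : Matrix V V ℝ := (Matrix.diagonal fun a => if a ∈ D then (1 : ℝ) else 0) * PM g with hN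
    have hnil : IsNilpotent N := by
      refine ⟨orderOf g + 1, ?_⟩
      ext a b
      rw [hN, NilL.pow_entry, if_neg, Matrix.zero_apply]
      rintro ⟨h1, -⟩
      have ha : a ∈ D := by simpa using h1 0 (by omega)
      obtain ⟨y, hy, hs⟩ := h a ha
      obtain ⟨i, hi, hi'⟩ := hs.exists_pow_eq'
      have : i < orderOf g + 1 := by
        have h3 : (g.cycleOf a).support.card ≤ orderOf g := by
          by_cases hf : g a = a
          · have : g.cycleOf a = 1 := (Perm.cycleOf_eq_one_iff _).2 hf
            rw [this]; simp
          · rw [← (Perm.isCycle_cycleOf g hf).orderOf]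
            exact Nat.le_of_dvd (orderOf_pos g) (Perm.orderOf_cycleOf_dvd_orderOf g a)
        omega
      exact hy (hi' ▸ h1 i this)
    have h1 : IsNilpotent (N.charpoly - Polynomial.X ^ Fintype.card V) :=
      Matrix.isNilpotent_charpoly_sub_pow_of_isNilpotent hnil
    have h2 : N.charpoly = Polynomial.X ^ Fintype.card V := sub_eq_zero.1 h1.eq_zero
    have h3 := Matrix.eval_charpoly N 1
    rw [h2] at h3
    simpa using h3.symm
  · rw [if_neg h]
    unfold esc at h
    push Not at h
    obtain ⟨x, hx, hx'⟩ := h
    refine Matrix.exists_mulVec_eq_zero_iff.1 ⟨fun a => if g.SameCycle x a then 1 else 0, ?_, ?_⟩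
    · intro h0
      have := congrFun h0 x
      simp only [Pi.zero_apply] at this
      rw [if_pos (Perm.SameCycle.refl g x)] at this
      exact one_ne_zero this
    · ext a
      rw [Matrix.sub_mulVec, Matrix.one_mulVec, Pi.sub_apply, Pi.zero_apply, sub_eq_zero,
        Matrix.mulVec, dotProduct]
      simp only [NilL.entry]
      rw [Finset.sum_eq_single (g a)]
      · by_cases hs : g.SameCycle x a
        · have ha : a ∈ D := by
            by_contra hc
            exact hx' a hc hs
          have hs' : g.SameCycle x (g a) := Perm.sameCycle_apply_right.2 hs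
          simp [ha, hs, hs']
        · have hs' : ¬ g.SameCycle x (g a) := fun h => hs (Perm.sameCycle_apply_right.1 h)
          simp [hs, hs']
      · intro c _ hc
        simp [Ne.symm hc]
      · simp

end Pool.Agent.Helper47K9.FD
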