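import Pool.Agent.Helper47K9.FD.Sch

set_option autoImplicit false

namespace Pool.Agent.Helper47K9.FD

open Finset Matrix Filter Topology Pool.Agent.Y998.ST

namespace PsiL

variable {V : Type} [Fintype V] [DecidableEq V]

theorem EN_dot (M : Matrix V V ℝ) (f : V → ℝ) : EN M f = f ⬝ᵥ M *ᵥ f := by
  simp only [dotProduct, Matrix.mulVec, EN, Finset.mul_sum, mul_assoc]

theorem BL_dot (M : Matrix V V ℝ) (f g : V → ℝ) : SchL.BL M f g = f ⬝ᵥ M *ᵥ g := by
  simp only [dotProduct, Matrix.mulVec, SchL.BL, Finset.mul_sum, mul_assoc]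

theorem EN_one_sub' (P : Matrix V V ℝ) (f : V → ℝ) :
    EN (1 - P) f = (∑ a, f a ^ 2) - EN P f := by
  rw [EN_dot, EN_dot, Matrix.sub_mulVec, Matrix.one_mulVec, dotProduct_sub]
  congr 1
  simp only [dotProduct, sq]

/-- The entries of a nearly constant matrix applied to a function of mean zero. -/
theorem near (P : Matrix V V ℝ) (c e : ℝ) (h : ∀ x y, |P x y - c| ≤ e) (ψ : V → ℝ)
    (h0 : ∑ a, ψ a = 0) (a : V) : |(P *ᵥ ψ) a| ≤ e * ∑ b, |ψ b| := by
  have h1 : (P *ᵥ ψ) a = ∑ b, (P a b - c) * ψ b := by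
    simp only [Matrix.mulVec, dotProduct, sub_mul, Finset.sum_sub_distrib, ← Finset.mul_sum, h0,
      mul_zero, sub_zero]
  rw [h1, Finset.mul_sum]
  refine (Finset.abs_sum_le_sum_abs _ _).trans (Finset.sum_le_sum fun b _ => ?_)
  rw [abs_mul]
  exact mul_le_mul_of_nonneg_right (h a b) (abs_nonneg _)

theorem near_dot (P : Matrix V V ℝ) (c e : ℝ) (h : ∀ x y, |P x y - c| ≤ e) (f ψ : V → ℝ)
    (h0 : ∑ a, ψ a = 0) : |f ⬝ᵥ P *ᵥ ψ| ≤ e * ((∑ a, |f a|) * ∑ b, |ψ b|) := by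
  have h1 : |f ⬝ᵥ P *ᵥ ψ| ≤ ∑ a, |f a| * (e * ∑ b, |ψ b|) := by
    unfold dotProduct
    refine (Finset.abs_sum_le_sum_abs _ _).trans (Finset.sum_le_sum fun a _ => ?_)
    rw [abs_mul]
    exact mul_le_mul_of_nonneg_left (near P c e h ψ h0 a) (abs_nonneg _)
  rw [← Finset.sum_mul] at h1
  linarith [h1, mul_left_comm (∑ a, |f a|) e (∑ b, |ψ b|)]

end PsiL

open PsiL

theorem psi : S_SYM → S_ENE → S_PSI := by
  intro hSYM hENE V _ _ J hJ hs h0 t ht b β hb hβ ψ f hψ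
  rcases isEmpty_or_nonempty V with hV | ⟨⟨v0⟩⟩
  · simp [EN]
  set P := qq J t with hP
  set S := ∑ a, |ψ a| with hS
  have hS0 : 0 ≤ S := Finset.sum_nonneg fun a _ => abs_nonneg _
  have hPs : ∀ a b, P a b = P b a := fun a b => hSYM V J hs h0 t a b
  have hpow : ∀ k : ℕ, P ^ k = qq J (k * t) := fun k => qq_pow hs h0 t k
  have hpows : ∀ (k : ℕ) a b, (P ^ k) a b = (P ^ k) b a := fun k a b => by
    rw [hpow]; exact hSYM V J hs h0 _ a b
  have hM : ∀ a b, (1 - P) a b = (1 - P) b a := by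
    intro a b
    rw [Matrix.sub_apply, Matrix.sub_apply, hPs a b, Matrix.one_apply, Matrix.one_apply]
    simp only [eq_comm]
  have hpsd : ∀ g : V → ℝ, 0 ≤ EN (1 - P) g := by
    intro g
    rw [EN_one_sub']
    linarith [(hENE V J hJ hs h0 t ht g).2.1]
  have hb0 : ∀ k, 1 ≤ k → 0 ≤ b k := fun k hk => (abs_nonneg _).trans (hb k hk v0 v0)
  -- the potential
  have hkey : ∀ N : ℕ, 1 ≤ N → (f ⬝ᵥ ψ - f ⬝ᵥ (P ^ N) *ᵥ ψ) ^ 2 ≤
      EN (1 - P) f * ((∑ a, ψ a ^ 2) + β * S ^ 2) := by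
    intro N hN
    set U : Matrix V V ℝ := ∑ k ∈ Finset.range N, P ^ k with hU
    have hMU : (1 - P) * U = 1 - P ^ N := mul_neg_geom_sum P N
    set u := U *ᵥ ψ with hu
    have hMu : (1 - P) *ᵥ u = ψ - (P ^ N) *ᵥ ψ := by
      rw [hu, Matrix.mulVec_mulVec, hMU, Matrix.sub_mulVec, Matrix.one_mulVec]
    have hcs := SchL.cs (1 - P) hM hpsd f u
    rw [BL_dot, hMu, dotProduct_sub] at hcs
    have huk : ∀ g : V → ℝ, u ⬝ᵥ g = ∑ k ∈ Finset.range N, ψ ⬝ᵥ (P ^ k) *ᵥ g := by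
      intro g
      rw [hu, hU, Matrix.sum_mulVec, sum_dotProduct]
      refine Finset.sum_congr rfl fun k _ => ?_
      rw [dotProduct_comm, Matrix.dotProduct_mulVec, ← Matrix.mulVec_transpose]
      have : (P ^ k)ᵀ = P ^ k := by
        ext a b
        exact hpows k b a
      rw [this, dotProduct_comm]
    have hEu : EN (1 - P) u = u ⬝ᵥ ψ - u ⬝ᵥ (P ^ N) *ᵥ ψ := by
      rw [EN_dot, hMu, dotProduct_sub]
    have h1 : 0 ≤ u ⬝ᵥ (P ^ N) *ᵥ ψ := by
      rw [huk]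
      refine Finset.sum_nonneg fun k _ => ?_
      rw [Matrix.mulVec_mulVec, ← pow_add, hpow, ← EN_dot]
      exact (hENE V J hJ hs h0 _ (by positivity) ψ).1
    have h2 : u ⬝ᵥ ψ ≤ (∑ a, ψ a ^ 2) + β * S ^ 2 := by
      rw [huk]
      obtain ⟨n, rfl⟩ : ∃ n, N = n + 1 := ⟨N - 1, by omega⟩
      rw [Finset.sum_range_succ', pow_zero, Matrix.one_mulVec]
      have e1 : ψ ⬝ᵥ ψ = ∑ a, ψ a ^ 2 := by simp only [dotProduct, sq]
      have e2 : ∑ k ∈ Finset.range n, ψ ⬝ᵥ (P ^ (k + 1)) *ᵥ ψ ≤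
          ∑ k ∈ Finset.range n, b (k + 1) * S ^ 2 := by
        refine Finset.sum_le_sum fun k _ => ?_
        have := near_dot (P ^ (k + 1)) (1 / (Fintype.card V : ℝ)) (b (k + 1)) (by
          rw [hpow]; exact hb (k + 1) (by omega)) ψ ψ hψ
        rw [← hS, ← sq] at this
        exact (le_abs_self _).trans this
      have e3 : ∑ k ∈ Finset.range n, b (k + 1) ≤ β := by
        refine le_trans (le_of_eq ?_) (hβ n)
        rw [Finset.range_eq_Ico, Finset.sum_Ico_add' b 0 n 1]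
        rfl
      rw [← Finset.sum_mul] at e2
      have e4 : (∑ k ∈ Finset.range n, b (k + 1)) * S ^ 2 ≤ β * S ^ 2 :=
        mul_le_mul_of_nonneg_right e3 (sq_nonneg _)
      rw [e1]
      linarith
    refine hcs.trans (mul_le_mul_of_nonneg_left ?_ (hpsd f))
    rw [hEu]
    linarith
  -- the limit
  have hbt : Tendsto (fun N : ℕ => b (N + 1)) atTop (𝓝 0) := by
    have hsum : Summable fun k : ℕ => b (k + 1) := by
      refine summable_of_sum_range_le (c := β) (fun k => hb0 (k + 1) (by omega)) fun n => ?_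
      refine le_trans (le_of_eq ?_) (hβ n)
      rw [Finset.range_eq_Ico, Finset.sum_Ico_add' b 0 n 1]
      rfl
    exact hsum.tendsto_atTop_zero
  have hr : Tendsto (fun N : ℕ => f ⬝ᵥ (P ^ (N + 1)) *ᵥ ψ) atTop (𝓝 0) := by
    refine squeeze_zero_norm (a := fun N : ℕ => b (N + 1) * ((∑ a, |f a|) * S)) (fun N => ?_) ?_
    · rw [Real.norm_eq_abs]
      exact near_dot (P ^ (N + 1)) (1 / (Fintype.card V : ℝ)) (b (N + 1)) (by
        rw [hpow]; exact hb (N + 1) (by omega)) f ψ hψ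
    · simpa using hbt.mul_const ((∑ a, |f a|) * S)
  have hlim : Tendsto (fun N : ℕ => (f ⬝ᵥ ψ - f ⬝ᵥ (P ^ (N + 1)) *ᵥ ψ) ^ 2) atTop
      (𝓝 ((f ⬝ᵥ ψ) ^ 2)) := by
    simpa using (tendsto_const_nhds.sub hr).pow 2
  have := le_of_tendsto hlim (Eventually.of_forall fun N => hkey (N + 1) (by omega))
  rw [EN_one_sub'] at this
  exact this

end Pool.Agent.Helper47K9.FD
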