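import Pool.Agent.Helper47K9.FD.Stm

/-!
# [RET] the heat kernel minus its limit
-/

set_option autoImplicit false

namespace Pool.Agent.Helper47K9.FD

open Finset Equiv Pool.Agent.Y998.ST

namespace RetL

variable {L : ℕ} [NeZero L]

theorem prod_diff {ι : Type} (s : Finset ι) (g : ι → ℝ) (a r : ℝ) (ha : 0 ≤ a) (hr : 0 ≤ r)
    (h : ∀ i ∈ s, |g i - a| ≤ r) :
    |∏ i ∈ s, g i| ≤ (a + r) ^ s.card ∧ |∏ i ∈ s, g i - a ^ s.card| ≤ (a + r) ^ s.card - a ^ s.card := by
  classical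
  induction s using Finset.induction_on with
  | empty => simp
  | insert x s hx ih =>
    obtain ⟨h1, h2⟩ := ih fun i hi => h i (mem_insert_of_mem hi)
    have h3 := h x (mem_insert_self x s)
    have h4 : |g x| ≤ a + r := by
      have := abs_sub_abs_le_abs_sub (g x) a
      rw [abs_of_nonneg ha] at this
      linarith
    rw [Finset.prod_insert hx, card_insert_of_notMem hx]
    constructor
    · rw [abs_mul, pow_succ, mul_comm]
      exact mul_le_mul h1 h4 (abs_nonneg _) (by positivity)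
    · have e1 : g x * ∏ i ∈ s, g i - a ^ (s.card + 1) =
          (g x - a) * ∏ i ∈ s, g i + a * (∏ i ∈ s, g i - a ^ s.card) := by ring
      rw [e1]
      refine (abs_add_le _ _).trans ?_
      rw [abs_mul, abs_mul, abs_of_nonneg ha]
      have h5 : |g x - a| * |∏ i ∈ s, g i| ≤ r * (a + r) ^ s.card :=
        mul_le_mul h3 h1 (abs_nonneg _) hr
      have h6 : a * |∏ i ∈ s, g i - a ^ s.card| ≤ a * ((a + r) ^ s.card - a ^ s.card) :=
        mul_le_mul_of_nonneg_left h2 ha
      calc |g x - a| * |∏ i ∈ s, g i| + a * |∏ i ∈ s, g i - a ^ s.card|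
          ≤ r * (a + r) ^ s.card + a * ((a + r) ^ s.card - a ^ s.card) := add_le_add h5 h6
        _ = _ := by ring

/-- the sum over the nonzero frequencies -/
noncomputable def Sr (L : ℕ) [NeZero L] (s : ℝ) : ℝ :=
  ∑ k ∈ (univ : Finset (ZMod L)).erase 0, Real.exp (-(s * lam k))

theorem lam_zero : lam (0 : ZMod L) = 0 := by
  unfold lam
  rw [rc_zero]
  ring

theorem gk_split (s : ℝ) (u : ZMod L) : gk L s u - 1 / L =
    1 / L * ∑ k ∈ (univ : Finset (ZMod L)).erase 0, Real.exp (-(s * lam k)) * rc (k * u) := by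
  unfold gk
  rw [← Finset.add_sum_erase univ _ (Finset.mem_univ (0 : ZMod L)), lam_zero, zero_mul, rc_zero,
    mul_zero, neg_zero, Real.exp_zero]
  ring

theorem gk_diff (s : ℝ) (u : ZMod L) : |gk L s u - 1 / L| ≤ 1 / L * Sr L s := by
  rw [gk_split]
  have hL : (0 : ℝ) ≤ 1 / L := by positivity
  rw [abs_mul, abs_of_nonneg hL]
  refine mul_le_mul_of_nonneg_left ((Finset.abs_sum_le_sum_abs _ _).trans
    (Finset.sum_le_sum fun k _ => ?_)) hL
  rw [abs_mul, abs_of_pos (Real.exp_pos _)]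
  calc Real.exp (-(s * lam k)) * |rc (k * u)| ≤ Real.exp (-(s * lam k)) * 1 :=
        mul_le_mul_of_nonneg_left (rc_le _) (Real.exp_pos _).le
    _ = _ := mul_one _

theorem gk_r (s : ℝ) : gk L s 0 - 1 / L = 1 / L * Sr L s := by
  rw [gk_split]
  unfold Sr
  simp only [mul_zero, rc_zero, mul_one]

theorem r_small {s : ℝ} (hs : 0 < s) : 1 / L * Sr L s ≤ 1 / Real.sqrt s := by
  rw [← gk_r]
  have := gk_le (L := L) hs
  linarith

theorem lam_gap (k : ZMod L) (hk : k ≠ 0) : 16 / (L : ℝ) ^ 2 ≤ lam k := by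
  refine le_trans ?_ (lam_lower k)
  have h1 : (1 : ℝ) ≤ (k.valMinAbs : ℝ) ^ 2 := by
    have h2 : k.valMinAbs ≠ 0 := by
      intro h
      exact hk ((ZMod.valMinAbs_eq_zero k).1 h)
    have h3 : (1 : ℤ) ≤ k.valMinAbs ^ 2 := by
      have := sq_nonneg k.valMinAbs
      have h4 : k.valMinAbs ^ 2 ≠ 0 := pow_ne_zero 2 h2
      omega
    exact_mod_cast h3
  rw [div_pow, ← mul_div_assoc]
  refine div_le_div_of_nonneg_right ?_ (by positivity)
  linarith

theorem Sr_decay (s : ℝ) (hs : (L : ℝ) ^ 2 ≤ s) :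
    Sr L s ≤ Real.exp 16 * Real.exp (-(s / (L : ℝ) ^ 2)) * Sr L ((L : ℝ) ^ 2) := by
  have hL : (0 : ℝ) < L := by exact_mod_cast Nat.pos_of_ne_zero (NeZero.ne L)
  unfold Sr
  rw [Finset.mul_sum]
  refine Finset.sum_le_sum fun k hk => ?_
  rw [← Real.exp_add, ← Real.exp_add]
  refine Real.exp_le_exp.2 ?_
  have h1 := lam_gap k (Finset.ne_of_mem_erase hk)
  have h2 : (s - (L : ℝ) ^ 2) * (16 / (L : ℝ) ^ 2) ≤ (s - (L : ℝ) ^ 2) * lam k :=
    mul_le_mul_of_nonneg_left h1 (by linarith)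
  have h3 : (s - (L : ℝ) ^ 2) * (16 / (L : ℝ) ^ 2) = 16 * (s / (L : ℝ) ^ 2) - 16 := by
    field_simp
  have h4 : 0 ≤ s / (L : ℝ) ^ 2 := by
    have : 0 ≤ s := le_trans (by positivity) hs
    positivity
  nlinarith

end RetL

open RetL in
theorem ret : S_RET := by
  intro d hd
  obtain ⟨C₁, hC₁⟩ : ∃ C₁ : ℝ, C₁ = Real.exp 16 * d.factorial := ⟨_, rfl⟩
  have hC₁0 : 0 < C₁ := by
    rw [hC₁]
    have : (0 : ℝ) < d.factorial := by exact_mod_cast Nat.factorial_pos d
    positivity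
  have hd0 : (0 : ℝ) < d := by exact_mod_cast (show 0 < d by omega)
  refine ⟨d * 2 ^ (d - 1) + d * C₁ * (1 + C₁) ^ (d - 1), by positivity,
    fun L _ hL s hs x y => ?_⟩
  have hLr : (0 : ℝ) < L := by exact_mod_cast (show 0 < L by omega)
  have hs0 : 0 < s := by linarith
  have hst : 0 < Real.sqrt s := Real.sqrt_pos.2 hs0
  obtain ⟨r, hr⟩ : ∃ r : ℝ, r = 1 / L * Sr L s := ⟨_, rfl⟩
  have hr0 : 0 ≤ r := by
    rw [hr]
    unfold Sr
    exact mul_nonneg (by positivity) (Finset.sum_nonneg fun k _ => (Real.exp_pos _).le)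
  have h1 : |qq (nnRate d L) s x y - 1 / (L : ℝ) ^ d| ≤ (1 / L + r) ^ d - (1 / L) ^ d := by
    rw [qq_eq_hk hL]
    unfold hk
    have h2 := (prod_diff (univ : Finset (Fin d)) (fun i => gk L s (y i - x i)) (1 / L) r
      (by positivity) hr0 (fun i _ => by rw [hr]; exact gk_diff s _)).2
    rw [Finset.card_univ, Fintype.card_fin] at h2
    rw [one_div_pow] at h2
    rw [one_div_pow]
    exact h2
  have h2 : (1 / L + r) ^ d - (1 / L) ^ d ≤ d * r * (1 / L + r) ^ (d - 1) := by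
    have hconv : ∀ (m : ℕ) (a : ℝ), 0 ≤ a → (a + r) ^ (m + 1) - a ^ (m + 1) ≤
        (m + 1) * r * (a + r) ^ m := by
      intro m a ha
      induction m with
      | zero => simp
      | succ m ih =>
        have e1 : (a + r) ^ (m + 1 + 1) - a ^ (m + 1 + 1) =
            (a + r) * ((a + r) ^ (m + 1) - a ^ (m + 1)) + r * a ^ (m + 1) := by ring
        rw [e1]
        have h3 : a ^ (m + 1) ≤ (a + r) ^ (m + 1) := pow_le_pow_left₀ ha (by linarith) _
        have h4 : (a + r) * ((a + r) ^ (m + 1) - a ^ (m + 1)) ≤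
            (a + r) * ((m + 1) * r * (a + r) ^ m) := mul_le_mul_of_nonneg_left ih (by linarith)
        push_cast
        calc (a + r) * ((a + r) ^ (m + 1) - a ^ (m + 1)) + r * a ^ (m + 1)
            ≤ (a + r) * ((m + 1) * r * (a + r) ^ m) + r * (a + r) ^ (m + 1) :=
              add_le_add h4 (mul_le_mul_of_nonneg_left h3 hr0)
          _ = _ := by ring
    have h3 := hconv (d - 1) (1 / L) (by positivity)
    have e2 : d - 1 + 1 = d := by omega
    rw [e2] at h3
    have e3 : (((d - 1 : ℕ) : ℝ) + 1) = d := by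
      have : (((d - 1 : ℕ) : ℝ) + 1) = ((d - 1 + 1 : ℕ) : ℝ) := by push_cast; ring
      rw [this, e2]
    rw [e3] at h3
    exact h3
  refine h1.trans (h2.trans ?_)
  rw [le_div_iff₀ (by positivity)]
  have eS : Real.sqrt s ^ d = Real.sqrt s * Real.sqrt s ^ (d - 1) := by
    rw [← pow_succ']
    congr 1
    omega
  rcases le_total s ((L : ℝ) ^ 2) with hc | hc
  · have h3 : r ≤ 1 / Real.sqrt s := by rw [hr]; exact r_small hs0
    have h4 : 1 / (L : ℝ) ≤ 1 / Real.sqrt s := by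
      refine one_div_le_one_div_of_le hst ?_
      rw [← Real.sqrt_sq hLr.le]
      exact Real.sqrt_le_sqrt hc
    have h5 : 1 / (L : ℝ) + r ≤ 2 / Real.sqrt s := by
      have : 2 / Real.sqrt s = 1 / Real.sqrt s + 1 / Real.sqrt s := by ring
      linarith
    have h6 : d * r * (1 / L + r) ^ (d - 1) ≤ d * (1 / Real.sqrt s) * (2 / Real.sqrt s) ^ (d - 1) :=
      mul_le_mul (mul_le_mul_of_nonneg_left h3 hd0.le) (pow_le_pow_left₀ (by positivity) h5 _)
        (by positivity) (by positivity)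
    have h7 : d * (1 / Real.sqrt s) * (2 / Real.sqrt s) ^ (d - 1) * Real.sqrt s ^ d =
        d * 2 ^ (d - 1) := by
      rw [eS, div_pow]
      field_simp
    calc d * r * (1 / L + r) ^ (d - 1) * Real.sqrt s ^ d
        ≤ d * (1 / Real.sqrt s) * (2 / Real.sqrt s) ^ (d - 1) * Real.sqrt s ^ d :=
          mul_le_mul_of_nonneg_right h6 (by positivity)
      _ = d * 2 ^ (d - 1) := h7
      _ ≤ _ := by
          have : 0 ≤ d * C₁ * (1 + C₁) ^ (d - 1) := by positivity
          linarith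
  · obtain ⟨q, hq⟩ : ∃ q : ℝ, q = Real.sqrt s / L := ⟨_, rfl⟩
    have hq0 : 0 < q := by rw [hq]; positivity
    have hq2 : q ^ 2 = s / (L : ℝ) ^ 2 := by
      rw [hq, div_pow, Real.sq_sqrt hs0.le]
    have hq1 : 1 ≤ q := by
      rw [hq, le_div_iff₀ hLr, one_mul, ← Real.sqrt_sq hLr.le]
      exact Real.sqrt_le_sqrt hc
    -- `r ≤ C₁ / L / q ^ d`
    have h3 : r * (L * q ^ d) ≤ C₁ := by
      have h4 : r ≤ Real.exp 16 * Real.exp (-(s / (L : ℝ) ^ 2)) * (1 / L) := by
        have h5 := Sr_decay (L := L) s hc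
        have h6 := r_small (L := L) (s := (L : ℝ) ^ 2) (by positivity)
        rw [Real.sqrt_sq hLr.le] at h6
        calc r = 1 / L * Sr L s := hr
          _ ≤ 1 / L * (Real.exp 16 * Real.exp (-(s / (L : ℝ) ^ 2)) * Sr L ((L : ℝ) ^ 2)) :=
              mul_le_mul_of_nonneg_left h5 (by positivity)
          _ = Real.exp 16 * Real.exp (-(s / (L : ℝ) ^ 2)) * (1 / L * Sr L ((L : ℝ) ^ 2)) := by ring
          _ ≤ _ := mul_le_mul_of_nonneg_left h6 (by positivity)
      have h7 : Real.exp (-(s / (L : ℝ) ^ 2)) * q ^ d ≤ d.factorial := by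
        rw [← hq2, Real.exp_neg, inv_mul_le_iff₀ (Real.exp_pos _)]
        have h8 : (q ^ 2) ^ d / d.factorial ≤ Real.exp (q ^ 2) :=
          Real.pow_div_factorial_le_exp _ (by positivity) d
        have h9 : (0 : ℝ) < d.factorial := by exact_mod_cast Nat.factorial_pos d
        rw [div_le_iff₀ h9] at h8
        refine le_trans ?_ h8
        exact pow_le_pow_left₀ hq0.le (by nlinarith) d
      calc r * (L * q ^ d) ≤ Real.exp 16 * Real.exp (-(s / (L : ℝ) ^ 2)) * (1 / L) * (L * q ^ d) :=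
            mul_le_mul_of_nonneg_right h4 (by positivity)
        _ = Real.exp 16 * (Real.exp (-(s / (L : ℝ) ^ 2)) * q ^ d) := by field_simp
        _ ≤ Real.exp 16 * d.factorial := mul_le_mul_of_nonneg_left h7 (Real.exp_pos _).le
        _ = C₁ := hC₁.symm
    have h4 : (1 / L + r) * L ≤ 1 + C₁ := by
      have h5 : 1 ≤ q ^ d := one_le_pow₀ hq1
      have h6 : r * L ≤ r * (L * q ^ d) :=
        mul_le_mul_of_nonneg_left (by nlinarith) hr0
      have h7 : (1 / L + r) * L = 1 + r * L := by field_simp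
      linarith
    have h5 : ((1 / L + r) * L) ^ (d - 1) ≤ (1 + C₁) ^ (d - 1) :=
      pow_le_pow_left₀ (by positivity) h4 _
    have eq : Real.sqrt s ^ d = q ^ d * (L : ℝ) ^ d := by
      rw [← mul_pow, hq]
      congr 1
      field_simp
    have eL : (L : ℝ) ^ d = L * (L : ℝ) ^ (d - 1) := by
      rw [← pow_succ']
      congr 1
      omega
    calc d * r * (1 / L + r) ^ (d - 1) * Real.sqrt s ^ d
        = d * (r * (L * q ^ d)) * ((1 / L + r) * L) ^ (d - 1) := by
          rw [eq, eL, mul_pow]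
          ring
      _ ≤ d * C₁ * (1 + C₁) ^ (d - 1) :=
          mul_le_mul (mul_le_mul_of_nonneg_left h3 hd0.le) h5 (by positivity) (by positivity)
      _ ≤ _ := by
          have : 0 ≤ (d : ℝ) * 2 ^ (d - 1) := by positivity
          linarith

end Pool.Agent.Helper47K9.FD
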