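import Pool.Agent.Helper47K9.FD.Sub

set_option autoImplicit false

namespace Pool.Agent.Helper47K9.FD

open Finset Matrix

namespace SchL

variable {V : Type} [Fintype V] [DecidableEq V]

/-- Bilinear form. -/
def BL (M : Matrix V V ℝ) (f g : V → ℝ) : ℝ := ∑ a, ∑ b, f a * M a b * g b

theorem BL_symm (M : Matrix V V ℝ) (hM : ∀ a b, M a b = M b a) (f g : V → ℝ) :
    BL M f g = BL M g f := by
  unfold BL
  rw [Finset.sum_comm]
  refine Finset.sum_congr rfl fun a _ => Finset.sum_congr rfl fun b _ => ?_
  rw [hM b a]; ring

theorem EN_add (M : Matrix V V ℝ) (hM : ∀ a b, M a b = M b a) (f g : V → ℝ) (s : ℝ) :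
    EN M (fun a => f a + s * g a) = EN M f + 2 * s * BL M f g + s ^ 2 * EN M g := by
  have h : EN M (fun a => f a + s * g a) =
      EN M f + s * BL M f g + s * BL M g f + s ^ 2 * EN M g := by
    unfold EN BL
    simp only [Finset.mul_sum, ← Finset.sum_add_distrib]
    refine Finset.sum_congr rfl fun a _ => Finset.sum_congr rfl fun b _ => ?_
    ring
  rw [h, BL_symm M hM g f]; ring

/-- Cauchy-Schwarz for a positive semidefinite form. -/
theorem cs (M : Matrix V V ℝ) (hM : ∀ a b, M a b = M b a) (hp : ∀ f : V → ℝ, 0 ≤ EN M f)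
    (f g : V → ℝ) : BL M f g ^ 2 ≤ EN M f * EN M g := by
  have h : ∀ s : ℝ, 0 ≤ EN M g * (s * s) + 2 * BL M f g * s + EN M f := by
    intro s
    have := hp (fun a => f a + s * g a)
    rw [EN_add M hM] at this
    linarith
  have := discrim_le_zero h
  unfold discrim at this
  nlinarith

theorem det_nonneg (M : Matrix V V ℝ) (hM : ∀ a b, M a b = M b a)
    (hp : ∀ f : V → ℝ, 0 ≤ EN M f) (D : Finset V) : 0 ≤ (cut D M).det := by
  rw [sub V D M]
  have hps : M.PosSemidef := by
    refine Matrix.PosSemidef.of_dotProduct_mulVec_nonneg ?_ ?_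
    · ext a b
      simp [Matrix.conjTranspose_apply, hM b a]
    · intro f
      have : star f ⬝ᵥ M *ᵥ f = EN M f := by
        simp only [star_trivial, dotProduct, Matrix.mulVec, EN, Finset.mul_sum, mul_assoc]
      rw [this]
      exact hp f
  exact (hps.submatrix _).det_nonneg

end SchL

open SchL

theorem sch : S_SCH := by
  intro V _ _ M hM hp D x hx
  set B := cut D M with hB
  set m := (cut (D.erase x) M).det with hm
  have hupd : cut (D.erase x) M = B.updateRow x (Pi.single x 1) := by
    ext a b
    by_cases hax : a = x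
    · subst hax
      simp [cut, Matrix.updateRow_apply, Pi.single_apply, eq_comm]
    · simp [cut, hB, Matrix.updateRow_apply, hax]
  let g : V → ℝ := fun b => B.adjugate b x
  have hgx : g x = m := by
    change B.adjugate x x = m
    rw [Matrix.adjugate_apply, ← hupd]
  have hBg : ∀ a, ∑ b, B a b * g b = if a = x then B.det else 0 := by
    intro a
    have h1 : (B * B.adjugate) a x = (B.det • (1 : Matrix V V ℝ)) a x := by
      rw [Matrix.mul_adjugate]
    rw [Matrix.mul_apply, Matrix.smul_apply, Matrix.one_apply] at h1
    rw [h1]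
    by_cases h : a = x <;> simp [h]
  have hsupp : ∀ a, a ∉ D → g a = 0 := by
    intro a ha
    have h1 := hBg a
    have hax : a ≠ x := fun h => ha (h ▸ hx)
    rw [if_neg hax] at h1
    simpa [hB, cut, ha] using h1
  have hMg : ∀ a ∈ D, ∑ b, M a b * g b = if a = x then B.det else 0 := by
    intro a ha
    rw [← hBg a]
    simp [hB, cut, ha]
  have hfg : ∀ f : V → ℝ, (∀ a, a ∉ D → f a = 0) → BL M f g = f x * B.det := by
    intro f hf
    unfold BL
    have : ∀ a, ∑ b, f a * M a b * g b = if a = x then f x * B.det else 0 := by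
      intro a
      by_cases ha : a ∈ D
      · have h2 : ∑ b, f a * M a b * g b = f a * ∑ b, M a b * g b := by
          rw [Finset.mul_sum]
          exact Finset.sum_congr rfl fun b _ => by ring
        rw [h2, hMg a ha]
        by_cases h : a = x
        · subst h; simp
        · simp [h]
      · have hax : a ≠ x := fun h => ha (h ▸ hx)
        simp [hf a ha, hax]
    simp only [this]
    simp
  have hgg : EN M g = m * B.det := by
    have : EN M g = BL M g g := rfl
    rw [this, hfg g hsupp, hgx]
  have hm0 : 0 ≤ m := det_nonneg M hM hp _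
  have hB0 : 0 ≤ B.det := det_nonneg M hM hp _
  constructor
  · intro f hfx hf
    have h1 := cs M hM hp f g
    rw [hfg f hf, hgg, hfx, one_mul] at h1
    rcases hB0.eq_or_lt with h | h
    · rw [← h]
      exact mul_nonneg (hp f) hm0
    · have h2 : B.det * B.det ≤ (EN M f * m) * B.det := by
        nlinarith
      exact le_of_mul_le_mul_right h2 h
  · intro c hc
    rcases hm0.eq_or_lt with h | h
    · rw [← h, mul_zero]
      exact hB0
    · have h1 := hc (fun a => g a / m) (by rw [hgx]; exact div_self h.ne') (fun a ha => by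
        rw [hsupp a ha, zero_div])
      have h2 : EN M (fun a => g a / m) = EN M g / m ^ 2 := by
        unfold EN
        rw [Finset.sum_div]
        refine Finset.sum_congr rfl fun a _ => ?_
        rw [Finset.sum_div]
        refine Finset.sum_congr rfl fun b _ => ?_
        field_simp
      rw [h2, hgg] at h1
      have h3 : m * B.det / m ^ 2 = B.det / m := by field_simp
      rw [h3, le_div_iff₀ h] at h1
      exact h1

end Pool.Agent.Helper47K9.FD
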