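import Pool.Agent.Y998.ST.Torus

/-!
# The determinant formula for the absence of cycles inside a set: definitions and statements

`P(no cycle of σ_t is contained in D) = det (1 - p_t restricted to D)`, for random stirring on any
finite graph. Reason: `E det (1 + Y P_σ) = det (1 + Y p_t)` for all matrices `Y`, since the
matrices `P_(swap) - 1` have rank one and `det` is affine in rank one directions.
-/

set_option autoImplicit false

namespace Pool.Agent.Helper47K9.FD

open Finset Equiv Pool.Agent.Y998.ST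

section defs

variable {V : Type} [Fintype V] [DecidableEq V]

/-- Permutation matrix. -/
def PM (g : Perm V) : Matrix V V ℝ := fun a b => if g a = b then 1 else 0

/-- Rows outside `D` replaced by those of the identity. -/
def cut (D : Finset V) (M : Matrix V V ℝ) : Matrix V V ℝ :=
  fun a b => if a ∈ D then M a b else if a = b then 1 else 0

/-- No cycle of `g` is contained in `D`. -/
def esc (D : Finset V) (g : Perm V) : Prop := ∀ x ∈ D, ∃ y, y ∉ D ∧ g.SameCycle x y

/-- The probability that no cycle is contained in `D`. -/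
noncomputable def NC (J : V → V → ℝ) (t : ℝ) (D : Finset V) : ℝ :=
  open Classical in stirExp J t (fun g => if esc D g then 1 else 0)

/-- Quadratic form. -/
noncomputable def EN (M : Matrix V V ℝ) (f : V → ℝ) : ℝ := ∑ a, ∑ b, f a * M a b * f b

end defs

/-- `ℓ¹` distance on the torus. -/
def tdist {d L : ℕ} (x y : Fin d → ZMod L) : ℕ := ∑ i, (x i - y i).valMinAbs.natAbs

/-- AFF. The determinant is affine along a direction of rank one (for instance with
`Matrix.det_fromBlocks_one₁₁`: the determinant of `[[1, -w], [s u, A]]` is affine in its first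
block column). -/
def S_AFF : Prop := ∀ (V : Type) [Fintype V] [DecidableEq V] (A : Matrix V V ℝ) (u w : V → ℝ)
  (s : ℝ), (A + s • Matrix.vecMulVec u w).det =
    A.det + s * ((A + Matrix.vecMulVec u w).det - A.det)

/-- DDET. Derivative of the determinant along a curve whose velocity is a sum of matrices of rank
one: `det` is a polynomial in the entries, hence differentiable (as a function on `V → V → ℝ`), its
derivative at `A t` is linear, and along `vecMulVec (u i) (w i)` it is given by S_AFF. -/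
def S_DDET : Prop := ∀ (V : Type) [Fintype V] [DecidableEq V] (A : ℝ → Matrix V V ℝ) (t : ℝ)
  (ι : Type) [Fintype ι] (c : ι → ℝ) (u w : ι → V → ℝ),
  (∀ a b, HasDerivAt (fun s => A s a b) ((∑ i, c i • Matrix.vecMulVec (u i) (w i)) a b) t) →
  HasDerivAt (fun s => (A s).det)
    (∑ i, c i * ((A t + Matrix.vecMulVec (u i) (w i)).det - (A t).det)) t

/-- DET. Duality. `Φ s = E_s det (1 + Y * PM σ * qq (t - s))` is constant: `exp_deriv` gives the
terms `J a b / 2 * (det (1 + Y * PM g * PM (swap a b) * qq (t - s)) - det (1 + Y * PM g * qq (t - s)))`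
and the derivative of `qq (t - s)` is `- GG * qq (t - s)` with
`GG = ∑ a, ∑ b, J a b / 2 • (PM (swap a b) - 1)`, `PM (swap a b) - 1 = - v v^T`, so that S_DDET gives
the same terms with the opposite sign. See `Pool.Agent.Helper47K9.SC.Duh` for the same computation
with products instead of determinants (`law_sum`, `qq_back`). -/
def S_DET : Prop := ∀ (V : Type) [Fintype V] [DecidableEq V] (J : V → V → ℝ),
  (∀ x y, J x y = J y x) → (∀ x, J x x = 0) → ∀ (t : ℝ) (Y : Matrix V V ℝ),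
  stirExp J t (fun g => (1 + Y * PM g).det) = (1 + Y * qq J t).det

open Classical in
/-- NIL. If a cycle of `g` is contained in `D` then its indicator is in the kernel of
`1 - 1_D PM g`; otherwise `1_D PM g` is nilpotent (every orbit leaves `D` within `card V` steps), so
the determinant is `1` (`Matrix.isNilpotent_charpoly_sub_pow_of_isNilpotent`, or a block triangular
argument). -/
def S_NIL : Prop := ∀ (V : Type) [Fintype V] [DecidableEq V] (g : Perm V) (D : Finset V),
  (1 - (Matrix.diagonal fun a => if a ∈ D then (1 : ℝ) else 0) * PM g).det =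
    if esc D g then 1 else 0

/-- SUB. The determinant of `cut D M` is the principal minor of `M` on `D`. -/
def S_SUB : Prop := ∀ (V : Type) [Fintype V] [DecidableEq V] (D : Finset V) (M : Matrix V V ℝ),
  (cut D M).det =
    (M.submatrix (fun a : {a // a ∈ D} => (a : V)) (fun a : {a // a ∈ D} => (a : V))).det

/-- SCH. Schur complement. `M` symmetric and positive semidefinite, `x ∈ D`. The quotient of the
minors of `D` and `D \ x` is the minimum of the form over `f` supported in `D` with `f x = 1`.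
(b): `cut`-minor of `M - c e_x e_x^T` on `D` is `det_D - c det_(D \ x)` and this matrix is positive
semidefinite on `D`. (a): change of basis `e_x ↦ f` (determinant one) and Fischer's inequality
`det_D ≤ M x x * det_(D \ x)`, which follows from the Schur complement if the minor of `D \ x` is
positive, and from `M + ε` in general. -/
def S_SCH : Prop := ∀ (V : Type) [Fintype V] [DecidableEq V] (M : Matrix V V ℝ),
  (∀ a b, M a b = M b a) → (∀ f : V → ℝ, 0 ≤ EN M f) → ∀ (D : Finset V) (x : V), x ∈ D →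
  (∀ f : V → ℝ, f x = 1 → (∀ a, a ∉ D → f a = 0) →
    (cut D M).det ≤ EN M f * (cut (D.erase x) M).det) ∧
  (∀ c : ℝ, (∀ f : V → ℝ, f x = 1 → (∀ a, a ∉ D → f a = 0) → c ≤ EN M f) →
    c * (cut (D.erase x) M).det ≤ (cut D M).det)

/-- SYM. The kernel is symmetric (law of the inverse: `Pool.Agent.Y998.LP.law_inv`). -/
def S_SYM : Prop := ∀ (V : Type) [Fintype V] [DecidableEq V] (J : V → V → ℝ),
  (∀ x y, J x y = J y x) → (∀ x, J x x = 0) → ∀ (t : ℝ) (a b : V), qq J t a b = qq J t b a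

/-- ENE. `0 ≤ ⟨f, p f⟩ ≤ ⟨f, f⟩` and `⟨f, f⟩ - ⟨f, p_t f⟩ ≤ t * energy`:
`⟨f, p_t f⟩ = ∑ (p_(t/2) f)²`; its derivative in `t` is `- energy (p_(t/2) f)`, i.e. the function
`t ↦ ⟨f, p_t f⟩` is nonincreasing and convex with slope `- 1/2 ∑ J (f a - f b)²` at `0`
(log-convexity is not needed: `⟨g, - GG p_s g⟩ = ∑ over ... ≤ ⟨g, - GG g⟩` since
`s ↦ ⟨p_(s/2) g, - GG p_(s/2) g⟩` is nonincreasing, its derivative is `- ∑ (GG p_(s/2) g)² `). -/
def S_ENE : Prop := ∀ (V : Type) [Fintype V] [DecidableEq V] (J : V → V → ℝ),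
  (∀ x y, 0 ≤ J x y) → (∀ x y, J x y = J y x) → (∀ x, J x x = 0) → ∀ (t : ℝ), 0 ≤ t →
  ∀ f : V → ℝ, 0 ≤ EN (qq J t) f ∧ EN (qq J t) f ≤ ∑ a, f a ^ 2 ∧
    (∑ a, f a ^ 2) - EN (qq J t) f ≤ t * (∑ a, ∑ b, J a b / 2 * (f a - f b) ^ 2)

/-- PSI. With `u = ∑_(k < N) P^k ψ`, `P = qq J t`: `(1 - P) u = ψ - P^N ψ`, Cauchy-Schwarz for the form
of `1 - P`, `⟨u, (1 - P) u⟩ ≤ ⟨u, ψ⟩ ≤ ∑ ψ² + (∑_(1 ≤ k < N) b k) (∑ |ψ|)²`, and `N → ∞`
(`P^N = qq J (N t)`, its entries tend to `1 / card V` since `∑ b` converges). -/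
def S_PSI : Prop := ∀ (V : Type) [Fintype V] [DecidableEq V] (J : V → V → ℝ),
  (∀ x y, 0 ≤ J x y) → (∀ x y, J x y = J y x) → (∀ x, J x x = 0) → ∀ (t : ℝ), 0 ≤ t →
  ∀ (b : ℕ → ℝ) (β : ℝ),
  (∀ k : ℕ, 1 ≤ k → ∀ x y, |qq J (k * t) x y - 1 / (Fintype.card V : ℝ)| ≤ b k) →
  (∀ N : ℕ, ∑ k ∈ Finset.Icc 1 N, b k ≤ β) →
  ∀ (ψ f : V → ℝ), ∑ a, ψ a = 0 →
  (∑ a, f a * ψ a) ^ 2 ≤
    ((∑ a, f a ^ 2) - EN (qq J t) f) * ((∑ a, ψ a ^ 2) + β * (∑ a, |ψ a|) ^ 2)

/-- RET. `|p_s(x, y) - L^(-d)| ≤ C s^(-d/2)` for `s ≥ 1`. (`qq_eq_hk`; with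
`r = gk L s 0 - 1 / L = (1 / L) ∑_(k ≠ 0) exp (- s lam k)` one has `|gk L s u - 1 / L| ≤ r`,
`r ≤ 1 / √s` is `gk_le`, and for `s ≥ L²` `lam_lower` gives `r ≤ C / L * (L² / s) ^ (d / 2)`.) -/
def S_RET : Prop := ∀ d : ℕ, 1 ≤ d → ∃ C : ℝ, 0 < C ∧ ∀ (L : ℕ) [NeZero L], 3 ≤ L →
  ∀ s : ℝ, 1 ≤ s → ∀ x y : Fin d → ZMod L,
  |qq (nnRate d L) s x y - 1 / (L : ℝ) ^ d| ≤ C / Real.sqrt s ^ d

/-- CAP. Capacity in two dimensions: `f y = max 0 (1 - log (1 + |y - x|) / log (1 + r))`. An edge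
between the distances `j` and `j + 1` contributes at most `(1 / ((1 + j) log (1 + r)))²`, and there
are at most `C (j + 1)` points at distance `j`. -/
def S_CAP : Prop := ∃ C : ℝ, 0 < C ∧ ∀ (L : ℕ) [NeZero L], 3 ≤ L → ∀ (x : Fin 2 → ZMod L) (r : ℕ),
  1 ≤ r → ∃ f : (Fin 2 → ZMod L) → ℝ, f x = 1 ∧ (∀ y, r ≤ tdist x y → f y = 0) ∧
  ∑ a, ∑ b, nnRate 2 L a b / 2 * (f a - f b) ^ 2 ≤ C / Real.log (1 + r)

end Pool.Agent.Helper47K9.FD
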