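import Pool.Agent.Helper47K9.FD.Stm

set_option autoImplicit false

namespace Pool.Agent.Helper47K9.FD

theorem detInst {n : Type} (F1 F2 : Fintype n) (D1 D2 : DecidableEq n) (M : Matrix n n ℝ) :
    @Matrix.det n D1 F1 ℝ _ M = @Matrix.det n D2 F2 ℝ _ M := by
  obtain rfl : F1 = F2 := Subsingleton.elim _ _
  obtain rfl : D1 = D2 := Subsingleton.elim _ _
  rfl

theorem sub : S_SUB := by
  intro V _ _ D M
  rw [Matrix.twoBlockTriangular_det (cut D M) (fun a => a ∈ D)]
  · have h1 : (cut D M).toSquareBlockProp (fun a => a ∈ D) =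
        M.submatrix (fun a : {a // a ∈ D} => (a : V)) (fun a : {a // a ∈ D} => (a : V)) := by
      ext a b
      simp [Matrix.toSquareBlockProp, cut, a.2]
    have h2 : (cut D M).toSquareBlockProp (fun a => ¬ (a ∈ D)) = 1 := by
      ext a b
      have : (a : V) ∉ D := a.2
      simp [Matrix.toSquareBlockProp, cut, this, Matrix.one_apply, Subtype.ext_iff]
    rw [h1, h2, Matrix.det_one, mul_one]
    exact detInst _ _ _ _ _
  · intro i hi j hj
    have : i ≠ j := fun h => hi (h ▸ hj)
    simp [cut, hi, this]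

end Pool.Agent.Helper47K9.FD
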