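import Pool.Agent.Helper47K9.FD.Asm

/-!
# The determinant formula: telescoping, the torus
-/

set_option autoImplicit false

namespace Pool.Agent.Helper47K9.FD

open Finset Equiv Pool.Agent.Y998.ST

section gen

variable {V : Type} [Fintype V] [DecidableEq V]

/-- upper bound, telescoped -/
theorem tel_up (w : Finset V → ℝ)
    (h : ∀ (S : Finset V) (x : V), S.Nonempty → x ∉ S →
      ((S.card : ℝ) + 1) * w S ≤ S.card * w (insert x S)) (S : Finset V) (hS : S.Nonempty) :
    ∀ R : Finset V, Disjoint S R → (((S ∪ R).card : ℝ)) * w S ≤ S.card * w (S ∪ R) := by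
  intro R
  induction R using Finset.induction_on with
  | empty => intro _; simp
  | insert x R hxR ih =>
    intro hd
    rw [Finset.disjoint_insert_right] at hd
    have h1 := ih hd.2
    have hx : x ∉ S ∪ R := by
      rw [mem_union]
      rintro (h2 | h2)
      · exact hd.1 h2
      · exact hxR h2
    have h2 := h (S ∪ R) x (hS.mono subset_union_left) hx
    have e1 : S ∪ insert x R = insert x (S ∪ R) := by
      ext a; simp only [mem_union, mem_insert]; tauto
    rw [e1, card_insert_of_notMem hx]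
    push_cast
    have hc : (0 : ℝ) < (S ∪ R).card := by
      exact_mod_cast (hS.mono subset_union_left).card_pos
    have hcS : (0 : ℝ) < S.card := by exact_mod_cast hS.card_pos
    have h3 : ((S ∪ R).card : ℝ) * ((((S ∪ R).card : ℝ) + 1) * w S) ≤
        ((S ∪ R).card : ℝ) * (S.card * w (insert x (S ∪ R))) := by
      calc ((S ∪ R).card : ℝ) * ((((S ∪ R).card : ℝ) + 1) * w S)
          = (((S ∪ R).card : ℝ) + 1) * (((S ∪ R).card : ℝ) * w S) := by ring
        _ ≤ (((S ∪ R).card : ℝ) + 1) * (S.card * w (S ∪ R)) :=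
            mul_le_mul_of_nonneg_left h1 (by positivity)
        _ = S.card * ((((S ∪ R).card : ℝ) + 1) * w (S ∪ R)) := by ring
        _ ≤ S.card * (((S ∪ R).card : ℝ) * w (insert x (S ∪ R))) :=
            mul_le_mul_of_nonneg_left h2 hcS.le
        _ = _ := by ring
    exact le_of_mul_le_mul_left h3 hc

/-- lower bound, telescoped -/
theorem tel_low (w : Finset V → ℝ) (q : ℝ) (hq : 0 ≤ q)
    (h : ∀ (S : Finset V) (x : V), S.Nonempty → x ∉ S →
      (S.card : ℝ) * w (insert x S) ≤ ((S.card : ℝ) + 1) * q * w S) (S : Finset V)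
    (hS : S.Nonempty) :
    ∀ R : Finset V, Disjoint S R →
      (S.card : ℝ) * w (S ∪ R) ≤ q ^ R.card * (((S ∪ R).card : ℝ) * w S) := by
  intro R
  induction R using Finset.induction_on with
  | empty => intro _; simp
  | insert x R hxR ih =>
    intro hd
    rw [Finset.disjoint_insert_right] at hd
    have h1 := ih hd.2
    have hx : x ∉ S ∪ R := by
      rw [mem_union]
      rintro (h2 | h2)
      · exact hd.1 h2
      · exact hxR h2
    have h2 := h (S ∪ R) x (hS.mono subset_union_left) hx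
    have e1 : S ∪ insert x R = insert x (S ∪ R) := by
      ext a; simp only [mem_union, mem_insert]; tauto
    rw [e1, card_insert_of_notMem hx, card_insert_of_notMem hxR]
    push_cast
    have hc : (0 : ℝ) < (S ∪ R).card := by
      exact_mod_cast (hS.mono subset_union_left).card_pos
    have hcS : (0 : ℝ) < S.card := by exact_mod_cast hS.card_pos
    have h3 : ((S ∪ R).card : ℝ) * (S.card * w (insert x (S ∪ R))) ≤
        ((S ∪ R).card : ℝ) * (q ^ (R.card + 1) * ((((S ∪ R).card : ℝ) + 1) * w S)) := by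
      calc ((S ∪ R).card : ℝ) * (S.card * w (insert x (S ∪ R)))
          = S.card * (((S ∪ R).card : ℝ) * w (insert x (S ∪ R))) := by ring
        _ ≤ S.card * ((((S ∪ R).card : ℝ) + 1) * q * w (S ∪ R)) :=
            mul_le_mul_of_nonneg_left h2 hcS.le
        _ = (((S ∪ R).card : ℝ) + 1) * q * (S.card * w (S ∪ R)) := by ring
        _ ≤ (((S ∪ R).card : ℝ) + 1) * q * (q ^ R.card * (((S ∪ R).card : ℝ) * w S)) :=
            mul_le_mul_of_nonneg_left h1 (by positivity)
        _ = _ := by ring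
    exact le_of_mul_le_mul_left h3 hc

/-- both bounds for stirring on a finite graph -/
theorem both (hDET : S_DET) (hNIL : S_NIL) (hSCH : S_SCH) (hSYM : S_SYM) (hENE : S_ENE)
    (hPSI : S_PSI)
    {J : V → V → ℝ} (hJ : ∀ x y, 0 ≤ J x y) (hs : ∀ x y, J x y = J y x) (h0 : ∀ x, J x x = 0)
    {t : ℝ} (ht : 0 ≤ t) (b : ℕ → ℝ) (β : ℝ) (hβ : 0 ≤ β)
    (hb : ∀ k : ℕ, 1 ≤ k → ∀ x y, |qq J (k * t) x y - 1 / (Fintype.card V : ℝ)| ≤ b k)
    (hbs : ∀ N : ℕ, ∑ k ∈ Finset.Icc 1 N, b k ≤ β)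
    (S T : Finset V) (hS : S.Nonempty) (hST : S ⊆ T) :
    (T.card : ℝ) * NC J t Sᶜ ≤ S.card * NC J t Tᶜ ∧
    (S.card : ℝ) * NC J t Tᶜ ≤ (1 + 4 * β) ^ (T \ S).card * (T.card * NC J t Sᶜ) := by
  have hT : S ∪ T \ S = T := by
    ext a
    simp only [mem_union, mem_sdiff]
    constructor
    · rintro (h | h)
      · exact hST h
      · exact h.1
    · intro h
      by_cases ha : a ∈ S
      · exact Or.inl ha
      · exact Or.inr ⟨h, ha⟩
  constructor
  · have h1 := tel_up (fun S => NC J t Sᶜ)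
      (fun S x _ hx => up hDET hNIL hSCH hSYM hENE hJ hs h0 ht S x hx) S hS (T \ S)
      disjoint_sdiff
    simp only [hT] at h1
    exact h1
  · have h1 := tel_low (fun S => NC J t Sᶜ) (1 + 4 * β) (by linarith)
      (fun S x hS hx => by
        refine (low hDET hNIL hSCH hSYM hENE hPSI hJ hs h0 ht b β hβ hb hbs S hS x hx).trans ?_
        refine mul_le_mul_of_nonneg_right ?_ (NC_nonneg hJ ht _)
        have : (0 : ℝ) ≤ S.card := by positivity
        nlinarith) S hS (T \ S) disjoint_sdiff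
    simp only [hT] at h1
    exact h1

end gen

/-- the series of the return probabilities, `d ≥ 3` -/
theorem beta (hRET : S_RET) (d : ℕ) (hd : 3 ≤ d) : ∃ C : ℝ, 0 < C ∧ ∀ (L : ℕ) [NeZero L], 3 ≤ L →
    ∀ t : ℝ, 1 ≤ t → ∃ b : ℕ → ℝ,
    (∀ k : ℕ, 1 ≤ k → ∀ x y, |qq (nnRate d L) (k * t) x y -
      1 / (Fintype.card (Fin d → ZMod L) : ℝ)| ≤ b k) ∧
    (∀ N : ℕ, ∑ k ∈ Finset.Icc 1 N, b k ≤ C / Real.sqrt t ^ d) := by
  obtain ⟨C, hC, h⟩ := hRET d (by omega)
  have hd3 : (3 : ℝ) ≤ d := by exact_mod_cast hd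
  have hsum : Summable fun n : ℕ => 1 / (n : ℝ) ^ ((d : ℝ) / 2) :=
    Real.summable_one_div_nat_rpow.2 (by linarith)
  obtain ⟨Z, hZ⟩ : ∃ Z : ℝ, Z = ∑' n : ℕ, 1 / (n : ℝ) ^ ((d : ℝ) / 2) := ⟨_, rfl⟩
  have hZ0 : 0 ≤ Z := by rw [hZ]; exact tsum_nonneg fun n => by positivity
  refine ⟨C * (1 + Z), by positivity, fun L _ hL t ht => ?_⟩
  have ht0 : 0 < t := by linarith
  have hst : 0 < Real.sqrt t := Real.sqrt_pos.2 ht0
  refine ⟨fun k => C / Real.sqrt t ^ d * (1 / (k : ℝ) ^ ((d : ℝ) / 2)), ?_, ?_⟩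
  · intro k hk x y
    have hk1 : (1 : ℝ) ≤ k := by exact_mod_cast hk
    have hN : (Fintype.card (Fin d → ZMod L) : ℝ) = (L : ℝ) ^ d := by
      rw [Fintype.card_fun, ZMod.card, Fintype.card_fin]
      push_cast
      rfl
    rw [hN]
    refine (h L hL (k * t) (by nlinarith) x y).trans (le_of_eq ?_)
    have h1 : Real.sqrt (k * t) ^ d = (k : ℝ) ^ ((d : ℝ) / 2) * Real.sqrt t ^ d := by
      rw [Real.sqrt_mul (by positivity), mul_pow]
      congr 1
      rw [Real.sqrt_eq_rpow, ← Real.rpow_natCast, ← Real.rpow_mul (by positivity)]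
      congr 1
      ring
    rw [h1]
    have h2 : (0 : ℝ) < (k : ℝ) ^ ((d : ℝ) / 2) := by positivity
    have h3 : (0 : ℝ) < Real.sqrt t ^ d := by positivity
    field_simp
  · intro N
    rw [← Finset.mul_sum]
    have h1 : ∑ k ∈ Finset.Icc 1 N, 1 / (k : ℝ) ^ ((d : ℝ) / 2) ≤ Z := by
      rw [hZ]
      exact hsum.sum_le_tsum _ fun m _ => by positivity
    have h3 : (0 : ℝ) < Real.sqrt t ^ d := by positivity
    calc C / Real.sqrt t ^ d * ∑ k ∈ Finset.Icc 1 N, 1 / (k : ℝ) ^ ((d : ℝ) / 2)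
        ≤ C / Real.sqrt t ^ d * (1 + Z) := mul_le_mul_of_nonneg_left (by linarith) (by positivity)
      _ = _ := by ring

end Pool.Agent.Helper47K9.FD
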